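import Pool.Agent.Helper20.FA.Ext

/-!
# The uniform bound
-/

open Topology Filter

namespace Pool.Agent.Helper20.FA

universe u v

/-- A closed subspace is separated from a point outside of it. -/
theorem exists_dual {E : Type v} [AddCommGroup E] [Module ℂ E] [TopologicalSpace E]
    [h : IsFrechet E] (N : Submodule ℂ E) (hN : IsClosed (N : Set E)) {x : E} (hx : x ∉ N) :
    ∃ g : E →L[ℂ] ℂ, g x = 1 ∧ ∀ c ∈ N, g c = 0 := by
  have := h.tag
  have := h.csm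
  have := h.lcs
  have hNc : Convex ℝ (N : Set E) := (N.restrictScalars ℝ).convex
  obtain ⟨f, u, hu, hux⟩ := RCLike.geometric_hahn_banach_closed_point (𝕜 := ℂ) hNc hN hx
  have hu0 : 0 < u := by
    have h1 := hu 0 N.zero_mem
    simpa using h1
  have hf : ∀ c ∈ N, f c = 0 := by
    intro c hc
    by_contra h0
    have h1 := hu (((u : ℂ) * (f c)⁻¹) • c) (N.smul_mem _ hc)
    rw [map_smul, smul_eq_mul, inv_mul_cancel_right₀ h0] at h1
    simp at h1
  have hfx : f x ≠ 0 := by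
    intro h0
    rw [h0] at hux
    simp at hux
    linarith
  refine ⟨(f x)⁻¹ • f, ?_, fun c hc => ?_⟩
  · show (f x)⁻¹ * f x = 1
    exact inv_mul_cancel₀ hfx
  · show (f x)⁻¹ * f c = 0
    rw [hf c hc, mul_zero]

variable {A : Type u} [NonUnitalRing A] [Module ℂ A] [IsScalarTower ℂ A A] [SMulCommClass ℂ A A]
  [TopologicalSpace A] [IsFrechet A] [ContinuousMul A]

/-- The uniform bound for functionals `f` on `L` with `f (a * c) = χ a * f c`. -/
theorem bound {J : FMod A} (hJ : Injective J) {χ : A → ℂ} {y : J.X} (hy0 : y ≠ 0)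
    (hy : ∀ a, J.act a y = χ a • y) :
    ∃ U ∈ 𝓝 (0 : A), ∀ L : Submodule ℂ A, IsClosed (L : Set A) →
      (∀ a : A, ∀ c ∈ L, a * c ∈ L) → ∀ f : A →L[ℂ] ℂ,
        (∀ a : A, ∀ c ∈ L, f (a * c) = χ a * f c) → ∃ M : ℝ, ∀ c ∈ U, c ∈ L → ‖f c‖ ≤ M := by
  have := J.fre.tag
  have := J.fre.csm
  have := J.fre.metr
  obtain ⟨g, hg, -⟩ := exists_dual (⊥ : Submodule ℂ J.X) isClosed_singleton (x := y)
    (by simpa using hy0)
  have h1 : Continuous fun p : A × J.X => ‖g (J.act p.1 p.2)‖ :=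
    (g.continuous.comp J.act_cont).norm
  have h2 : {p : A × J.X | ‖g (J.act p.1 p.2)‖ < 1} ∈ 𝓝 ((0 : A), (0 : J.X)) := by
    refine (isOpen_lt h1 continuous_const).mem_nhds ?_
    simp
  rw [nhds_prod_eq, Filter.mem_prod_iff] at h2
  obtain ⟨U, hU, V, hV, hUV⟩ := h2
  refine ⟨U, hU, fun L hLc hL f hf => ?_⟩
  obtain ⟨x, hx⟩ := exists_ext hJ hy L hLc hL f hf
  obtain ⟨r, hr, hrV⟩ : ∃ r : ℂ, r ≠ 0 ∧ r • x ∈ V := by
    have h3 : Continuous fun r : ℂ => r • x := by fun_prop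
    have h4 : ∀ᶠ r : ℂ in 𝓝 0, r • x ∈ V := by
      have h5 := h3.continuousAt (x := (0 : ℂ))
      rw [ContinuousAt, zero_smul] at h5
      exact h5 hV
    obtain ⟨r, hr, hr0⟩ := ((h4.filter_mono nhdsWithin_le_nhds).and
      (self_mem_nhdsWithin (s := {(0 : ℂ)}ᶜ))).exists
    exact ⟨r, hr0, hr⟩
  refine ⟨‖r‖⁻¹, fun c hcU hcL => ?_⟩
  have h6 : ‖g (J.act c (r • x))‖ < 1 := hUV (Set.mk_mem_prod hcU hrV)
  rw [map_smul, hx c hcL, map_smul, map_smul, hg, smul_eq_mul, smul_eq_mul, mul_one,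
    norm_mul] at h6
  rw [inv_eq_one_div, le_div_iff₀ (norm_pos_iff.2 hr), mul_comm]
  exact h6.le

end Pool.Agent.Helper20.FA
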