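import Mathlib

/-!
# Seminorms modulo a subspace
-/

open Topology Filter
open scoped ComplexOrder

namespace Pool.Agent.Helper20.FA

universe v

section

variable {E : Type v} [AddCommGroup E] [Module ℂ E]

/-- A set that is weakly bounded modulo `N` is bounded modulo `N`. -/
theorem wsq (w : Seminorm ℂ E) (N : Submodule ℂ E) (B : Set E)
    (H : ∀ f : E →ₗ[ℂ] ℂ, (∃ C : ℝ, ∀ x, ‖f x‖ ≤ C * w x) → (∀ x ∈ N, f x = 0) →
      ∃ M : ℝ, ∀ b ∈ B, ‖f b‖ ≤ M) :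
    ∃ M : ℝ, ∀ b ∈ B, ∃ j ∈ N, w (b - j) ≤ M := by
  let _ : SeminormedAddCommGroup E := w.toSeminormedAddCommGroup
  let _ : NormedSpace ℂ E := { norm_smul_le := fun a b ↦ le_of_eq (map_smul_eq_mul w a b) }
  have hw : ∀ x : E, ‖x‖ = w x := fun x => rfl
  have h1 : ∀ φ : StrongDual ℂ (E ⧸ N), ∃ C : ℝ, ∀ b : B,
      ‖NormedSpace.inclusionInDoubleDual ℂ (E ⧸ N) (N.mkQ b) φ‖ ≤ C := by
    intro φ
    obtain ⟨M, hM⟩ := H (φ.toLinearMap.comp N.mkQ) ⟨‖φ‖, fun x => by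
      calc ‖φ (N.mkQ x)‖ ≤ ‖φ‖ * ‖N.mkQ x‖ := φ.le_opNorm _
        _ ≤ ‖φ‖ * w x := by
          gcongr
          exact Submodule.Quotient.norm_mk_le N x⟩
      (fun x hx => by
        show φ (N.mkQ x) = 0
        rw [Submodule.mkQ_apply, (Submodule.Quotient.mk_eq_zero N).2 hx, map_zero])
    exact ⟨M, fun b => hM b b.2⟩
  obtain ⟨C, hC⟩ := banach_steinhaus h1
  refine ⟨C + 1, fun b hb => ?_⟩
  have h2 : ‖N.mkQ b‖ ≤ C := by
    have h0 : 0 ≤ C := (norm_nonneg _).trans (hC ⟨b, hb⟩)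
    refine NormedSpace.norm_le_dual_bound ℂ (N.mkQ b) h0 fun φ => ?_
    calc ‖φ (N.mkQ b)‖ = ‖NormedSpace.inclusionInDoubleDual ℂ (E ⧸ N) (N.mkQ b) φ‖ := rfl
      _ ≤ ‖NormedSpace.inclusionInDoubleDual ℂ (E ⧸ N) (N.mkQ b)‖ * ‖φ‖ :=
        ContinuousLinearMap.le_opNorm _ _
      _ ≤ C * ‖φ‖ := by
        gcongr
        exact hC ⟨b, hb⟩
  obtain ⟨m, hm, hmn⟩ := Submodule.Quotient.norm_mk_lt (N.mkQ b) one_pos
  refine ⟨b - m, ?_, ?_⟩
  · rw [← Submodule.Quotient.eq]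
    exact hm.symm
  · rw [sub_sub_cancel, ← hw]
    exact hmn.le.trans (by gcongr)

/-- The quotient seminorm. -/
theorem exists_quotSeminorm (p : Seminorm ℂ E) (N : Submodule ℂ E) :
    ∃ P : Seminorm ℂ (E ⧸ N), (∀ x, P (N.mkQ x) ≤ p x) ∧
      ∀ x ε, P (N.mkQ x) < ε → ∃ j ∈ N, p (x - j) < ε := by
  let _ : SeminormedAddCommGroup E := p.toSeminormedAddCommGroup
  let _ : NormedSpace ℂ E := { norm_smul_le := fun a b ↦ le_of_eq (map_smul_eq_mul p a b) }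
  refine ⟨normSeminorm ℂ (E ⧸ N), fun x => ?_, fun x ε hx => ?_⟩
  · exact Submodule.Quotient.norm_mk_le N x
  · have h1 : ‖N.mkQ x‖ < ε := hx
    obtain ⟨m, hm, hmn⟩ := Submodule.Quotient.norm_mk_lt (N.mkQ x) (sub_pos.2 h1)
    refine ⟨x - m, ?_, ?_⟩
    · rw [← Submodule.Quotient.eq]
      exact hm.symm
    · rw [sub_sub_cancel]
      have h2 : ‖m‖ < ε := by linarith
      exact h2

end

section

variable {E : Type v} [AddCommGroup E] [Module ℂ E] [TopologicalSpace E]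
  [IsTopologicalAddGroup E] [ContinuousSMul ℂ E] [LocallyConvexSpace ℝ E]

/-- Continuous seminorms give the neighbourhoods of zero. -/
theorem exists_seminorm {U : Set E} (hU : U ∈ 𝓝 (0 : E)) :
    ∃ v : Seminorm ℂ E, Continuous v ∧ ∀ x, v x < 1 → x ∈ U := by
  have : ContinuousSMul ℝ E := IsScalarTower.continuousSMul ℂ
  have : LocallyConvexSpace ℂ E := by
    rw [locallyConvexSpace_iff_exists_convex_subset_zero]
    intro V hV
    obtain ⟨S, hS, hSc, hSV⟩ := (locallyConvexSpace_iff_exists_convex_subset_zero ℝ E).1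
      inferInstance V hV
    exact ⟨S, hS, convex_RCLike_iff_convex_real.2 hSc, hSV⟩
  obtain ⟨s, hs, hsU⟩ := (nhds_hasBasis_absConvex_open ℂ E).mem_iff.1 hU
  refine ⟨gaugeSeminormFamily ℂ E ⟨s, hs⟩,
    with_gaugeSeminormFamily.continuous_seminorm _, fun x hx => hsU ?_⟩
  have h1 := gaugeSeminormFamily_ball (𝕜 := ℂ) (E := E) ⟨s, hs⟩
  have h2 : x ∈ (gaugeSeminormFamily ℂ E ⟨s, hs⟩).ball 0 1 := by
    rw [Seminorm.mem_ball_zero]
    exact hx
  rw [h1] at h2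
  exact h2

end

end Pool.Agent.Helper20.FA
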