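import Pool.Agent.Helper20.FA.Bound
import Pool.Agent.Helper20.FA.Semi

/-!
# The descending chain of ideals
-/

open Topology Filter

namespace Pool.Agent.Helper20.FA

universe u

/-- The elements `(a 1 - χ (a 1)) * (a 2 - χ (a 2)) * ... * (a n - χ (a n)) * c`. -/
def prods {A : Type u} [NonUnitalRing A] [Module ℂ A] (χ : A → ℂ) (n : ℕ) : Set A :=
  {x | ∃ (l : List A) (c : A), l.length = n ∧ x = l.foldr (fun a z => a * z - χ a • z) c}

variable {A : Type u} [NonUnitalRing A] [Module ℂ A] [IsScalarTower ℂ A A] [SMulCommClass ℂ A A]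
  [TopologicalSpace A] [IsTopologicalAddGroup A] [ContinuousSMul ℂ A] [ContinuousMul A]

/-- The closed ideal generated by `I` and the products. -/
def Q (χ : A → ℂ) (I : Submodule ℂ A) (n : ℕ) : Submodule ℂ A :=
  (I ⊔ Submodule.span ℂ (prods χ n)).topologicalClosure

omit [IsScalarTower ℂ A A] [SMulCommClass ℂ A A] [ContinuousMul A] in
theorem isClosed_Q (χ : A → ℂ) (I : Submodule ℂ A) (n : ℕ) : IsClosed (Q χ I n : Set A) :=
  Submodule.isClosed_topologicalClosure _

omit [IsScalarTower ℂ A A] [SMulCommClass ℂ A A] [ContinuousMul A] in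
theorem le_Q (χ : A → ℂ) (I : Submodule ℂ A) (n : ℕ) : I ≤ Q χ I n :=
  le_sup_left.trans (Submodule.le_topologicalClosure _)

omit [IsScalarTower ℂ A A] [SMulCommClass ℂ A A] [ContinuousMul A] in
theorem prods_subset_Q (χ : A → ℂ) (I : Submodule ℂ A) (n : ℕ) :
    prods χ n ⊆ Q χ I n := fun _ hx =>
  Submodule.le_topologicalClosure _ (le_sup_right (α := Submodule ℂ A)
    (Submodule.subset_span hx))

omit [IsScalarTower ℂ A A] [SMulCommClass ℂ A A] [ContinuousMul A] in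
theorem mem_Q_zero (χ : A → ℂ) (I : Submodule ℂ A) (c : A) : c ∈ Q χ I 0 :=
  prods_subset_Q χ I 0 ⟨[], c, rfl, rfl⟩

omit [IsScalarTower ℂ A A] in
theorem mul_mem_Q (χ : A → ℂ) {I : Submodule ℂ A} (hI : ∀ a : A, ∀ c ∈ I, a * c ∈ I) {n : ℕ}
    (a : A) {c : A} (hc : c ∈ Q χ I n) : a * c - χ a • c ∈ Q χ I (n + 1) := by
  have h1 : Continuous fun x : A => a * x - χ a • x := by fun_prop
  refine map_mem_closure (f := fun x : A => a * x - χ a • x) h1 hc fun x hx => ?_
  have h2 : I ⊔ Submodule.span ℂ (prods χ n) ≤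
      (I ⊔ Submodule.span ℂ (prods χ (n + 1))).comap
        (LinearMap.mulLeft ℂ a - χ a • LinearMap.id) := by
    refine sup_le (fun x hx => ?_) (Submodule.span_le.2 ?_)
    · exact le_sup_left (α := Submodule ℂ A) (I.sub_mem (hI a x hx) (I.smul_mem _ hx))
    · rintro _ ⟨l, c, hl, rfl⟩
      refine le_sup_right (α := Submodule ℂ A) (Submodule.subset_span ⟨a :: l, c, ?_, rfl⟩)
      rw [List.length_cons, hl]
  exact h2 hx

omit [IsScalarTower ℂ A A] [SMulCommClass ℂ A A] [ContinuousMul A] in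
theorem Q_succ_le (χ : A → ℂ) (I : Submodule ℂ A) (n : ℕ) : Q χ I (n + 1) ≤ Q χ I n := by
  refine Submodule.topologicalClosure_mono (sup_le_sup_left (Submodule.span_mono ?_) I)
  rintro _ ⟨l, c, hl, rfl⟩
  have h1 : l ≠ [] := by
    rintro rfl
    simp at hl
  refine ⟨l.dropLast, l.getLast h1 * c - χ (l.getLast h1) • c, by simp [hl], ?_⟩
  conv_lhs => rw [← List.dropLast_append_getLast h1]
  rw [List.foldr_append]
  rfl

theorem mul_mem_Q' (χ : A → ℂ) {I : Submodule ℂ A} (hI : ∀ a : A, ∀ c ∈ I, a * c ∈ I) (n : ℕ)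
    (a c : A) (hc : c ∈ Q χ I n) : a * c ∈ Q χ I n := by
  have h1 := (Q χ I n).add_mem (Q_succ_le χ I n (mul_mem_Q χ hI a hc))
    ((Q χ I n).smul_mem (χ a) hc)
  rwa [sub_add_cancel] at h1

omit [IsScalarTower ℂ A A] [SMulCommClass ℂ A A] [ContinuousMul A] in
theorem Q_le_self {χ : A → ℂ} {I : Submodule ℂ A} (hIc : IsClosed (I : Set A)) {n : ℕ}
    (h : ∀ x ∈ prods χ n, x ∈ I) : Q χ I n ≤ I :=
  Submodule.topologicalClosure_minimal _ (sup_le le_rfl (Submodule.span_le.2 h)) hIc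

omit [IsScalarTower ℂ A A] [ContinuousMul A] in
/-- If the products tend to `I`, then so do the ideals. -/
theorem pro {χ : A → ℂ} {I : Submodule ℂ A}
    (hpro : ∀ U ∈ 𝓝 (0 : A), ∃ n : ℕ, ∀ x ∈ prods χ n, ∃ i ∈ I, x - i ∈ U)
    (v : Seminorm ℂ A) (hv : Continuous v) :
    ∃ n : ℕ, ∀ c ∈ Q χ I n, ∀ ε : ℝ, 0 < ε → ∃ i ∈ I, v (c - i) < ε := by
  obtain ⟨P, hP1, hP2⟩ := exists_quotSeminorm v I
  have h1 : {x : A | v x < 1} ∈ 𝓝 (0 : A) := by
    refine (isOpen_lt hv continuous_const).mem_nhds ?_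
    simp
  obtain ⟨n, hn⟩ := hpro _ h1
  have hPc : Continuous (P.comp I.mkQ) :=
    Seminorm.continuous_of_le hv fun x => hP1 x
  let Z : Submodule ℂ A :=
    { carrier := {c | P.comp I.mkQ c = 0}
      add_mem' := by
        intro a b ha hb
        refine le_antisymm ?_ (apply_nonneg _ _)
        refine (map_add_le_add (P.comp I.mkQ) a b).trans ?_
        rw [ha, hb, add_zero]
      zero_mem' := map_zero (P.comp I.mkQ)
      smul_mem' := by
        intro r a ha
        show P.comp I.mkQ (r • a) = 0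
        rw [map_smul_eq_mul, ha, mul_zero] }
  have hZ : Q χ I n ≤ Z := by
    refine Submodule.topologicalClosure_minimal _ (sup_le (fun i hi => ?_)
      (Submodule.span_le.2 ?_)) (isClosed_eq hPc continuous_const)
    · show P (I.mkQ i) = 0
      rw [Submodule.mkQ_apply, (Submodule.Quotient.mk_eq_zero I).2 hi, map_zero]
    · rintro _ ⟨l, c, hl, rfl⟩
      set g : A → A → A := fun a z => a * z - χ a • z with hg
      show P (I.mkQ (l.foldr g c)) = 0
      refine le_antisymm ?_ (apply_nonneg _ _)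
      have h2 : ∀ (l : List A) (t : ℂ) (c : A),
          t • l.foldr g c = l.foldr g (t • c) := by
        intro l
        induction l with
        | nil => intro t c; rfl
        | cons a l ih =>
          intro t c
          rw [List.foldr_cons, List.foldr_cons, ← ih, hg]
          show t • (a * _ - χ a • _) = a * (t • _) - χ a • (t • _)
          rw [mul_smul_comm, smul_sub, smul_comm t (χ a)]
      have h3 : ∀ t : ℝ, 0 < t → t * P (I.mkQ (l.foldr g c)) ≤ 1 := by
        intro t ht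
        obtain ⟨i, hi, hiU⟩ := hn ((t : ℂ) • l.foldr g c) ⟨l, (t : ℂ) • c, hl, h2 l _ c⟩
        have h4 : v ((t : ℂ) • l.foldr g c - i) < 1 := hiU
        have h5 := hP1 ((t : ℂ) • l.foldr g c - i)
        have h6 : I.mkQ i = 0 := by
          rw [Submodule.mkQ_apply, (Submodule.Quotient.mk_eq_zero I).2 hi]
        rw [map_sub, h6, sub_zero, map_smul, map_smul_eq_mul, Complex.norm_real,
          Real.norm_of_nonneg ht.le] at h5
        exact h5.trans h4.le
      by_contra h7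
      push Not at h7
      have h8 := h3 (2 / P (I.mkQ (l.foldr g c))) (by positivity)
      rw [div_mul_cancel₀ _ h7.ne'] at h8
      norm_num at h8
  refine ⟨n, fun c hc ε hε => hP2 c ε ?_⟩
  have h9 : P.comp I.mkQ c = 0 := hZ hc
  have h10 : P (I.mkQ c) = 0 := h9
  rw [h10]
  exact hε

/-- The property of a neighbourhood given by the bound. -/
def Good (χ : A → ℂ) (U : Set A) : Prop :=
  ∀ L : Submodule ℂ A, IsClosed (L : Set A) →
      (∀ a : A, ∀ c ∈ L, a * c ∈ L) → ∀ f : A →L[ℂ] ℂ,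
        (∀ a : A, ∀ c ∈ L, f (a * c) = χ a * f c) → ∃ M : ℝ, ∀ c ∈ U, c ∈ L → ‖f c‖ ≤ M

/-- The step in the proof of normability. -/
theorem norm_step {χ : A → ℂ} {I : Submodule ℂ A} (hI : ∀ a : A, ∀ c ∈ I, a * c ∈ I) {U : Set A}
    (hU : U ∈ 𝓝 (0 : A)) (hG : Good χ U) [LocallyConvexSpace ℝ A] (k : ℕ) :
    ∃ p : Seminorm ℂ A, Continuous p ∧ ∀ v : Seminorm ℂ A, Continuous v →
      ∃ C : ℝ, ∀ c, p c < 1 → ∃ j ∈ Q χ I k, v (c - j) ≤ C := by
  induction k with
  | zero =>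
    refine ⟨0, continuous_const, fun v _ => ⟨0, fun c _ => ⟨c, mem_Q_zero χ I c, ?_⟩⟩⟩
    rw [sub_self, map_zero]
  | succ k ih =>
    obtain ⟨p, hp, hpv⟩ := ih
    obtain ⟨p1, hp1, hp1U⟩ := exists_seminorm hU
    refine ⟨p + p1, hp.add hp1, fun v hv => ?_⟩
    obtain ⟨C, hC⟩ := hpv (v + p1) (hv.add hp1)
    obtain ⟨M, hM⟩ := wsq v (Q χ I (k + 1)) {b | b ∈ U ∧ b ∈ Q χ I k} (by
      rintro f ⟨D, hD⟩ hf
      have hfc : Continuous f := by
        refine continuous_of_continuousAt_zero f ?_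
        rw [ContinuousAt, map_zero]
        refine squeeze_zero_norm hD ?_
        have h1 : Continuous fun x : A => D * v x := continuous_const.mul hv
        have h2 := h1.continuousAt (x := (0 : A))
        rwa [ContinuousAt, map_zero, mul_zero] at h2
      obtain ⟨M, hM⟩ := hG (Q χ I k) (isClosed_Q χ I k) (mul_mem_Q' χ hI k) ⟨f, hfc⟩
        (fun a c hc => by
          have h1 := hf _ (mul_mem_Q χ hI a hc)
          rw [map_sub, map_smul, smul_eq_mul, sub_eq_zero] at h1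
          exact h1)
      exact ⟨M, fun b hb => hM b hb.1 hb.2⟩)
    refine ⟨C + (|C| + 2) * M, fun c hc => ?_⟩
    have hc1 : p c + p1 c < 1 := hc
    have hpc := apply_nonneg p c
    have hp1c := apply_nonneg p1 c
    obtain ⟨j, hj, hjc⟩ := hC c (by linarith)
    have hjc' : v (c - j) + p1 (c - j) ≤ C := hjc
    have hv0 := apply_nonneg v (c - j)
    have hp0 := apply_nonneg p1 (c - j)
    have hC0 := le_abs_self C
    have hC1 := abs_nonneg C
    have hs : (0 : ℝ) < |C| + 2 := by linarith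
    have h3 : p1 j ≤ 1 + |C| := by
      have h4 : j = c - (c - j) := by abel
      calc p1 j = p1 (c - (c - j)) := by rw [← h4]
        _ ≤ p1 c + p1 (c - j) := map_sub_le_add p1 _ _
        _ ≤ 1 + |C| := by linarith
    set s : ℂ := ((|C| + 2 : ℝ) : ℂ) with hsdef
    have hsn : ‖s‖ = |C| + 2 := by
      rw [hsdef, Complex.norm_real, Real.norm_of_nonneg hs.le]
    have hs0 : s ≠ 0 := by
      rw [← norm_pos_iff, hsn]
      exact hs
    have h5 : s⁻¹ • j ∈ U := by
      refine hp1U _ ?_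
      rw [map_smul_eq_mul, norm_inv, hsn, inv_mul_lt_iff₀ hs]
      linarith
    obtain ⟨j', hj', hjj⟩ := hM (s⁻¹ • j) ⟨h5, (Q χ I k).smul_mem _ hj⟩
    refine ⟨s • j', (Q χ I (k + 1)).smul_mem _ hj', ?_⟩
    have h6 : c - s • j' = (c - j) + s • (s⁻¹ • j - j') := by
      rw [smul_sub, smul_inv_smul₀ hs0]
      abel
    rw [h6]
    refine (map_add_le_add v _ _).trans ?_
    rw [map_smul_eq_mul, hsn]
    have h7 : (|C| + 2) * v (s⁻¹ • j - j') ≤ (|C| + 2) * M := by gcongr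
    linarith

/-- The ideals stabilise. -/
theorem stab {χ : A → ℂ} {I : Submodule ℂ A} (hI : ∀ a : A, ∀ c ∈ I, a * c ∈ I) {U : Set A}
    (hG : Good χ U) [hA : IsFrechet A] {p1 : Seminorm ℂ A} (hp1U : ∀ x, p1 x < 1 → x ∈ U) {n : ℕ}
    (hn : ∀ c ∈ Q χ I n, ∀ ε : ℝ, 0 < ε → ∃ i ∈ I, p1 (c - i) < ε) (m : ℕ) :
    Q χ I n ≤ Q χ I (n + m) := by
  induction m with
  | zero => exact le_rfl
  | succ m ih =>
    intro c hc
    by_contra hcn
    obtain ⟨f, hfc, hf0⟩ := exists_dual (Q χ I (n + (m + 1))) (isClosed_Q χ I _) hcn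
    obtain ⟨M, hM⟩ := hG (Q χ I (n + m)) (isClosed_Q χ I _) (mul_mem_Q' χ hI _) f
      (fun a x hx => by
        have h1 := hf0 _ (mul_mem_Q χ hI a hx)
        rw [map_sub, map_smul, smul_eq_mul, sub_eq_zero] at h1
        exact h1)
    obtain ⟨i, hi, hiU⟩ := hn (((|M| + 1 : ℝ) : ℂ) • c) ((Q χ I n).smul_mem _ hc) 1 one_pos
    have h1 := hM _ (hp1U _ hiU)
      (ih ((Q χ I n).sub_mem ((Q χ I n).smul_mem _ hc) (le_Q χ I n hi)))
    rw [map_sub, hf0 i (le_Q χ I _ hi), sub_zero, map_smul, hfc, smul_eq_mul, mul_one,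
      Complex.norm_real, Real.norm_of_nonneg (by positivity)] at h1
    linarith [le_abs_self M]

/-- Normability of a quotient. -/
theorem normable_of [LocallyConvexSpace ℝ A] {I : Submodule ℂ A} {p : Seminorm ℂ A}
    (hp : Continuous p) (hpv : ∀ v : Seminorm ℂ A, Continuous v →
      ∃ C : ℝ, ∀ c, p c < 1 → ∃ j ∈ I, v (c - j) ≤ C) : Normable (A ⧸ I) := by
  obtain ⟨P, hP1, hP2⟩ := exists_quotSeminorm p I
  refine ⟨P, ?_⟩
  rw [SeminormFamily.withSeminorms_iff_nhds_eq_iInf, iInf_const]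
  have hmk : ContinuousAt I.mkQ (0 : A) := I.continuous_mkQ.continuousAt
  rw [ContinuousAt, map_zero] at hmk
  refine le_antisymm ?_ ?_
  · rw [← Filter.tendsto_iff_comap]
    rw [Metric.tendsto_nhds]
    intro ε hε
    have h1 : {x : A | p x < ε} ∈ 𝓝 (0 : A) := by
      refine (isOpen_lt hp continuous_const).mem_nhds ?_
      simpa using hε
    have h2 := I.isOpenMap_mkQ.image_mem_nhds h1
    rw [map_zero] at h2
    filter_upwards [h2] with q hq
    obtain ⟨x, hx, rfl⟩ := hq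
    rw [Real.dist_0_eq_abs, abs_of_nonneg (apply_nonneg _ _)]
    exact (hP1 x).trans_lt hx
  · intro O hO
    obtain ⟨v, hv, hvO⟩ := exists_seminorm (hmk hO)
    obtain ⟨C, hC⟩ := hpv v hv
    have hs : (0 : ℝ) < |C| + 1 := by positivity
    refine ⟨Metric.ball 0 (|C| + 1)⁻¹, Metric.ball_mem_nhds _ (by positivity), fun q hq => ?_⟩
    obtain ⟨x, rfl⟩ := I.mkQ_surjective q
    have h3 : P (I.mkQ x) < (|C| + 1)⁻¹ := by
      have h4 : P (I.mkQ x) ∈ Metric.ball (0 : ℝ) (|C| + 1)⁻¹ := hq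
      rwa [Metric.mem_ball, Real.dist_0_eq_abs, abs_of_nonneg (apply_nonneg _ _)] at h4
    obtain ⟨j, hj, hjx⟩ := hP2 x _ h3
    set s : ℂ := ((|C| + 1 : ℝ) : ℂ) with hsdef
    have hsn : ‖s‖ = |C| + 1 := by
      rw [hsdef, Complex.norm_real, Real.norm_of_nonneg hs.le]
    have hs0 : s ≠ 0 := by
      rw [← norm_pos_iff, hsn]
      exact hs
    obtain ⟨i, hi, hiv⟩ := hC (s • (x - j)) (by
      rw [map_smul_eq_mul, hsn]
      rw [← lt_inv_mul_iff₀ hs, mul_one]
      exact hjx)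
    have h5 : x - (j + s⁻¹ • i) ∈ I.mkQ ⁻¹' O := by
      refine hvO _ ?_
      have h6 : x - (j + s⁻¹ • i) = s⁻¹ • (s • (x - j) - i) := by
        rw [smul_sub, inv_smul_smul₀ hs0]
        abel
      rw [h6, map_smul_eq_mul, norm_inv, hsn, inv_mul_lt_iff₀ hs, mul_one]
      linarith [le_abs_self C]
    have h7 : I.mkQ (x - (j + s⁻¹ • i)) = I.mkQ x := by
      have h8 : I.mkQ (j + s⁻¹ • i) = 0 := by
        rw [Submodule.mkQ_apply, (Submodule.Quotient.mk_eq_zero I).2
          (I.add_mem hj (I.smul_mem _ hi))]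
      rw [map_sub, h8, sub_zero]
    rw [← h7]
    exact h5

end Pool.Agent.Helper20.FA
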