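import Pool.Agent.Helper20.FA.Cofree

/-!
# Injective coresolutions over a normable algebra
-/

open Topology Filter

namespace Pool.Agent.Helper20.FA

universe u

attribute [local instance] IsFrechet.tag IsFrechet.csm

variable {A : Type u} [NonUnitalRing A] [Module ℂ A] [IsScalarTower ℂ A A] [SMulCommClass ℂ A A]
  [TopologicalSpace A] [IsFrechet A] [ContinuousMul A]

/-- The quotient of a module by a closed submodule. -/
noncomputable def quotM (Y : FMod A) (N : Submodule ℂ Y.X) (hN : IsClosed (N : Set Y.X))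
    (hst : ∀ a, N ≤ N.comap (Y.act a)) : FMod A where
  X := Y.X ⧸ N
  fre := IsFrechet.quot N hN
  act :=
    { toFun := fun a => N.mapQ N (Y.act a) (hst a)
      map_add' := by
        intro a b
        ext1
        refine LinearMap.ext fun z => ?_
        simp
      map_smul' := by
        intro r a
        ext1
        refine LinearMap.ext fun z => ?_
        simp }
  act_mul := by
    intro a b x
    obtain ⟨z, rfl⟩ := N.mkQ_surjective x
    show N.mkQ (Y.act (a * b) z) = N.mkQ (Y.act a (Y.act b z))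
    rw [Y.act_mul]
  act_cont := by
    rw [← (IsOpenQuotientMap.id.prodMap N.isOpenQuotientMap_mkQ).continuous_comp_iff]
    exact N.continuous_mkQ.comp Y.act_cont

/-- The image of the unit. -/
noncomputable def imN (X : FMod A) : Submodule ℂ ((ℂ × A) →L[ℂ] X.X) where
  carrier := {φ | eta X (ev X φ) = φ}
  add_mem' := by
    intro φ ψ hφ hψ
    show eta X (ev X (φ + ψ)) = φ + ψ
    rw [map_add, map_add, hφ, hψ]
  zero_mem' := by
    show eta X (ev X 0) = 0
    rw [map_zero, map_zero]
  smul_mem' := by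
    intro r φ hφ
    show eta X (ev X (r • φ)) = r • φ
    rw [map_smul, map_smul, hφ]

theorem mem_imN {X : FMod A} {φ : (ℂ × A) →L[ℂ] X.X} : φ ∈ imN X ↔ eta X (ev X φ) = φ := Iff.rfl

theorem isClosed_imN (hA : Normable A) (X : FMod A) :
    IsClosed (imN X : Set ((ℂ × A) →L[ℂ] X.X)) := by
  have h1 : IsFrechet ((ℂ × A) →L[ℂ] X.X) := (Cof hA X).fre
  have := h1.metr
  exact isClosed_eq ((eta X).continuous.comp (ev X).continuous) continuous_id

theorem imN_le (X : FMod A) (a : A) : imN X ≤ (imN X).comap (actC X.X a) := by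
  intro φ hφ
  rw [mem_imN] at hφ
  rw [Submodule.mem_comap, mem_imN, ← hφ, ← eta_act, ev_eta]

/-- The cokernel of the unit. -/
noncomputable def Coker (hA : Normable A) (X : FMod A) : FMod A :=
  quotM (Cof hA X) (imN X) (isClosed_imN hA X) (imN_le X)

/-- The projection. -/
noncomputable def prj (hA : Normable A) (X : FMod A) :
    ((ℂ × A) →L[ℂ] X.X) →L[ℂ] (Coker hA X).X := (imN X).mkQL

/-- The section. -/
noncomputable def sec (hA : Normable A) (X : FMod A) :
    (Coker hA X).X →L[ℂ] ((ℂ × A) →L[ℂ] X.X) :=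
  (imN X).liftQL (ContinuousLinearMap.id ℂ ((ℂ × A) →L[ℂ] X.X) - (eta X).comp (ev X)) (by
    intro φ hφ
    rw [mem_imN] at hφ
    show φ - eta X (ev X φ) = 0
    rw [hφ, sub_self])

theorem sec_prj (hA : Normable A) (X : FMod A) (φ : (ℂ × A) →L[ℂ] X.X) :
    sec hA X (prj hA X φ) = φ - eta X (ev X φ) := rfl

theorem prj_eta (hA : Normable A) (X : FMod A) (x : X.X) : prj hA X (eta X x) = 0 := by
  have h1 : eta X x ∈ imN X := by rw [mem_imN, ev_eta]
  show (imN X).mkQ (eta X x) = 0
  rw [Submodule.mkQ_apply, (Submodule.Quotient.mk_eq_zero _).2 h1]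

theorem prj_sec (hA : Normable A) (X : FMod A) (q : (Coker hA X).X) :
    prj hA X (sec hA X q) = q := by
  obtain ⟨φ, rfl⟩ : ∃ φ, prj hA X φ = q := (imN X).mkQ_surjective q
  rw [sec_prj, map_sub, prj_eta, sub_zero]

/-- The iterated cokernels. -/
noncomputable def seqM (hA : Normable A) (X : FMod A) : ℕ → FMod A
  | 0 => X
  | n + 1 => Coker hA (seqM hA X n)

/-- Over a normable algebra, all modules have injective coresolutions. -/
theorem hasInjectiveCoresolution (hA : Normable A) (X : FMod A) :
    HasInjectiveCoresolution X := by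
  refine ⟨fun n => Cof hA (seqM hA X n), fun n => injective_Cof hA _, eta X,
    fun n => (eta (seqM hA X (n + 1))).comp (prj hA (seqM hA X n)), ?_, ?_, ?_, ?_, ev X,
    fun n => (sec hA (seqM hA X n)).comp (ev (seqM hA X (n + 1))), ?_, ?_, ?_⟩
  · intro a x
    exact eta_act X a x
  · intro n a x
    exact eta_act (seqM hA X (n + 1)) a (prj hA (seqM hA X n) x)
  · intro x
    show eta (seqM hA X 1) (prj hA X (eta X x)) = 0
    rw [prj_eta]
    exact map_zero (eta (seqM hA X 1))
  · intro n x
    show eta (seqM hA X (n + 2)) (prj hA (seqM hA X (n + 1)) (eta (seqM hA X (n + 1))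
      (prj hA (seqM hA X n) x))) = 0
    rw [prj_eta]
    exact map_zero (eta (seqM hA X (n + 2)))
  · intro x
    exact ev_eta X x
  · intro y
    show eta X (ev X y) + sec hA X (ev (seqM hA X 1) (eta (seqM hA X 1) (prj hA X y))) = y
    rw [ev_eta, sec_prj, add_sub_cancel]
  · intro n y
    show eta (seqM hA X (n + 1)) (prj hA (seqM hA X n) (sec hA (seqM hA X n)
      (ev (seqM hA X (n + 1)) y))) + sec hA (seqM hA X (n + 1)) (ev (seqM hA X (n + 2))
      (eta (seqM hA X (n + 2)) (prj hA (seqM hA X (n + 1)) y))) = y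
    rw [ev_eta, prj_sec, sec_prj, add_sub_cancel]

end Pool.Agent.Helper20.FA
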