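import Pool.Agent.Helper20.FA.Main
import Pool.Agent.Helper20.FA.Cores

/-!
# The module given by a character and the equivalence
-/

open Topology Filter

namespace Pool.Agent.Helper20.FA

universe u

attribute [local instance] IsFrechet.tag IsFrechet.csm

variable {A : Type u} [NonUnitalRing A] [Module ℂ A] [IsScalarTower ℂ A A] [SMulCommClass ℂ A A]
  [TopologicalSpace A] [IsFrechet A] [ContinuousMul A]

/-- The space `E` on which `a` acts as `χ a`. -/
noncomputable def chiM (χ : A →L[ℂ] ℂ) (hχ : ∀ a b, χ (a * b) = χ a * χ b) (E : Type u) [AddCommGroup E]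
    [Module ℂ E] [TopologicalSpace E] [IsFrechet E] : FMod A where
  X := E
  act := LinearMap.mk₂ ℂ (fun a x => χ a • x)
    (by intro a b x; rw [map_add, add_smul])
    (by intro r a x; rw [map_smul, smul_eq_mul, mul_smul])
    (by intro a x y; rw [smul_add])
    (by intro r a x; rw [smul_comm])
  act_mul := by
    intro a b x
    show χ (a * b) • x = χ a • χ b • x
    rw [hχ, mul_smul]
  act_cont := by
    show Continuous fun p : A × E => χ p.1 • p.2
    fun_prop

/-- There is a nonzero module on which `a` acts as `χ a`. -/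
theorem exists_chiM (χ : A →L[ℂ] ℂ) (hχ : ∀ a b, χ (a * b) = χ a * χ b) :
    ∃ (X : FMod A) (x : X.X), x ≠ 0 ∧ ∀ a, X.act a x = χ a • x := by
  have h1 : IsFrechet (ℂ × A) := IsFrechet.prod
  let N : Submodule ℂ (ℂ × A) := LinearMap.ker (LinearMap.fst ℂ ℂ A)
  have hN : IsClosed (N : Set (ℂ × A)) :=
    isClosed_eq (by fun_prop : Continuous fun z : ℂ × A => z.1) continuous_const
  have h2 : IsFrechet ((ℂ × A) ⧸ N) := IsFrechet.quot N hN
  refine ⟨chiM χ hχ ((ℂ × A) ⧸ N), N.mkQ (1, 0), ?_, fun a => rfl⟩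
  intro h3
  have h5 : (Submodule.Quotient.mk ((1 : ℂ), (0 : A)) : (ℂ × A) ⧸ N) = 0 := h3
  rw [Submodule.Quotient.mk_eq_zero] at h5
  have h4 : (1 : ℂ) = 0 := h5
  exact one_ne_zero h4

/-- The equivalence. -/
theorem tfae (χ : A →L[ℂ] ℂ) (hχ : ∀ a b, χ (a * b) = χ a * χ b)
    (hpro : ∀ U ∈ 𝓝 (0 : A), ∃ n : ℕ, ∀ l : List A, l.length = n → ∀ c : A,
      l.foldr (fun a z => a * z - χ a • z) c ∈ U) :
    List.TFAE [
      ∀ X : FMod A, HasInjectiveCoresolution X,
      ∃ (X : FMod A) (k : ℕ) (x : X.X), x ≠ 0 ∧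
        (∀ l : List A, l.length = k → l.foldr (fun a z => X.act a z - χ a • z) x = 0) ∧
        HasInjectiveCoresolution X,
      Normable A] := by
  tfae_have 1 → 2 := by
    intro h
    obtain ⟨X, x, hx, hxa⟩ := exists_chiM χ hχ
    refine ⟨X, 1, x, hx, fun l hl => ?_, h X⟩
    obtain ⟨a, rfl⟩ := List.length_eq_one_iff.1 hl
    show X.act a x - χ a • x = 0
    rw [hxa, sub_self]
  tfae_have 2 → 3 := by
    rintro ⟨X, k, x, hx, hxk, hX⟩
    obtain ⟨y, hy, hya⟩ := exists_killed k hx hxk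
    obtain ⟨J, hJ, z, hz, hza⟩ := exists_injective hX hy hya
    refine main_bot hJ hz hza fun U hU => ?_
    obtain ⟨n, hn⟩ := hpro U hU
    refine ⟨n, ?_⟩
    rintro _ ⟨l, c, hl, rfl⟩
    exact hn l hl c
  tfae_have 3 → 1 := fun h X => hasInjectiveCoresolution h X
  tfae_finish

end Pool.Agent.Helper20.FA
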