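import Pool.Agent.Helper20.FA.Quot

/-!
# Continuous linear maps between Fréchet spaces
-/

open Topology Filter Pointwise

namespace Pool.Agent.Helper20.FA

universe u v w

section

variable {E : Type v} [AddCommGroup E] [Module ℂ E] [TopologicalSpace E]
  {F : Type w} [AddCommGroup F] [Module ℂ F] [TopologicalSpace F] [IsTopologicalAddGroup F]
  [ContinuousSMul ℂ F]

/-- Neighbourhoods of zero in the space of continuous linear maps. -/
theorem hasBasis_clm {B : Set E} (hB : B ∈ 𝓝 (0 : E)) (hBb : Bornology.IsVonNBounded ℂ B) :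
    (𝓝 (0 : E →L[ℂ] F)).HasBasis (fun V : Set F => V ∈ 𝓝 (0 : F))
      fun V => {φ : E →L[ℂ] F | ∀ x ∈ B, φ x ∈ V} := by
  refine (ContinuousLinearMap.hasBasis_nhds_zero (𝕜₁ := ℂ) (σ := RingHom.id ℂ) (E := E)
    (F := F)).to_hasBasis ?_ ?_
  · rintro ⟨S, V⟩ ⟨hS, hV⟩
    obtain ⟨c, hSc, hc⟩ := ((hS hB).and (Bornology.eventually_ne_cobounded (0 : ℂ))).exists
    have h3 : c⁻¹ • V ∈ 𝓝 (0 : F) := (set_smul_mem_nhds_zero_iff (inv_ne_zero hc)).2 hV
    refine ⟨c⁻¹ • V, h3, fun φ hφ x hx => ?_⟩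
    obtain ⟨b, hb, rfl⟩ := hSc hx
    obtain ⟨y, hy, hyb⟩ := hφ b hb
    have hyb' : c⁻¹ • y = φ b := hyb
    show φ (c • b) ∈ V
    rw [map_smul, ← hyb', smul_inv_smul₀ hc]
    exact hy
  · intro V hV
    exact ⟨⟨B, V⟩, ⟨hBb, hV⟩, fun φ hφ => hφ⟩

theorem countable_clm [FirstCountableTopology F] {B : Set E} (hB : B ∈ 𝓝 (0 : E))
    (hBb : Bornology.IsVonNBounded ℂ B) : (𝓝 (0 : E →L[ℂ] F)).IsCountablyGenerated := by
  obtain ⟨V, hV⟩ := (𝓝 (0 : F)).exists_antitone_basis
  have h1 : (𝓝 (0 : E →L[ℂ] F)).HasBasis (fun _ : ℕ => True)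
      fun n => {φ : E →L[ℂ] F | ∀ x ∈ B, φ x ∈ V n} := by
    refine (hasBasis_clm hB hBb).to_hasBasis ?_ ?_
    · intro W hW
      obtain ⟨n, -, hn⟩ := hV.toHasBasis.mem_iff.1 hW
      exact ⟨n, trivial, fun φ hφ x hx => hn (hφ x hx)⟩
    · intro n _
      exact ⟨V n, hV.toHasBasis.mem_of_mem trivial, fun φ hφ => hφ⟩
  exact h1.isCountablyGenerated

omit [Module ℂ F] [ContinuousSMul ℂ F] in
theorem firstCountable_of_zero (h : (𝓝 (0 : F)).IsCountablyGenerated) :
    FirstCountableTopology F :=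
  ⟨fun x => by
    rw [← map_add_left_nhds_zero]
    infer_instance⟩

end

section

variable {E : Type v} [AddCommGroup E] [Module ℂ E] [TopologicalSpace E] [IsFrechet E]
  {F : Type w} [AddCommGroup F] [Module ℂ F] [TopologicalSpace F] [IsFrechet F]

attribute [local instance] IsFrechet.tag IsFrechet.csm

theorem IsFrechet.clm {B : Set E} (hB : B ∈ 𝓝 (0 : E)) (hBb : Bornology.IsVonNBounded ℂ B) :
    IsFrechet (E →L[ℂ] F) := by
  have hE : IsFrechet E := inferInstance
  have hF : IsFrechet F := inferInstance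
  have := hE.metr
  have := hF.metr
  have := hF.lcs
  have := countable_clm (F := F) hB hBb
  have := firstCountable_of_zero this
  have : ContinuousSMul ℝ F := IsScalarTower.continuousSMul ℂ
  have hlc : LocallyConvexSpace ℝ (E →L[ℂ] F) := by
    refine LocallyConvexSpace.ofBasisZero ℝ (E →L[ℂ] F) _ _
      (ContinuousLinearMap.hasBasis_nhds_zero_of_basis (𝕜₁ := ℂ) (σ := RingHom.id ℂ) (E := E)
        (LocallyConvexSpace.convex_basis_zero ℝ F)) ?_
    rintro ⟨S, V⟩ ⟨_, _, hVconvex⟩ f hf g hg a b ha hb hab x hx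
    exact hVconvex (hf x hx) (hg x hx) ha hb hab
  refine ⟨inferInstance, inferInstance, hlc, metr_of, ?_⟩
  let : UniformSpace F := IsTopologicalAddGroup.rightUniformSpace F
  have : IsUniformAddGroup F := isUniformAddGroup_of_addCommGroup
  have : CompleteSpace F := hF.complete
  have h1 : IsTopologicalAddGroup.rightUniformSpace (E →L[ℂ] F) =
      ContinuousLinearMap.uniformSpace :=
    IsUniformAddGroup.rightUniformSpace_eq
  rw [h1]
  infer_instance

end

end Pool.Agent.Helper20.FA
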