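import Pool.Agent.Helper20.FA.Clm

/-!
# Cofree modules over a normable algebra
-/

open Topology Filter Pointwise

namespace Pool.Agent.Helper20.FA

universe u v w

attribute [local instance] IsFrechet.tag IsFrechet.csm

section

variable {G : Type v} [AddCommGroup G] [Module ℂ G] [TopologicalSpace G] [IsTopologicalAddGroup G]
  {H : Type w} [AddCommGroup H] [Module ℂ H] [TopologicalSpace H] [IsTopologicalAddGroup H]
  {K : Type u} [AddCommGroup K] [Module ℂ K] [TopologicalSpace K] [IsTopologicalAddGroup K]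

theorem continuous_bilin (f : G →ₗ[ℂ] H →ₗ[ℂ] K)
    (h0 : ContinuousAt (fun p : G × H => f p.1 p.2) (0, 0)) (h1 : ∀ g, Continuous (f g))
    (h2 : ∀ h, Continuous fun g => f g h) : Continuous fun p : G × H => f p.1 p.2 := by
  rw [continuous_iff_continuousAt]
  rintro ⟨g0, k0⟩
  have h3 : (fun p : G × H => f p.1 p.2) = fun p : G × H => f (p.1 - g0) (p.2 - k0) +
      f g0 (p.2 - k0) + f (p.1 - g0) k0 + f g0 k0 := by
    funext p
    simp only [map_sub, LinearMap.sub_apply]
    abel
  rw [h3]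
  refine ContinuousAt.add (ContinuousAt.add (ContinuousAt.add ?_ ?_) ?_) continuousAt_const
  · have h4 : ContinuousAt (fun p : G × H => (p.1 - g0, p.2 - k0)) (g0, k0) := by fun_prop
    refine ContinuousAt.comp (g := fun p : G × H => f p.1 p.2) (x := (g0, k0)) ?_ h4
    simpa using h0
  · exact ((h1 g0).comp (by fun_prop : Continuous fun p : G × H => p.2 - k0)).continuousAt
  · exact ((h2 k0).comp (by fun_prop : Continuous fun p : G × H => p.1 - g0)).continuousAt

end

variable {A : Type u} [NonUnitalRing A] [Module ℂ A] [IsScalarTower ℂ A A] [SMulCommClass ℂ A A]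
  [TopologicalSpace A] [IsFrechet A] [ContinuousMul A]

/-- Right multiplication by `a` on `A_+`. -/
def rmul (a : A) : (ℂ × A) →L[ℂ] (ℂ × A) where
  toFun z := (0, z.1 • a + z.2 * a)
  map_add' z w := by
    simp only [Prod.fst_add, Prod.snd_add, add_smul, add_mul, Prod.mk_add_mk, add_zero]
    congr 1
    abel
  map_smul' r z := by
    simp only [Prod.smul_fst, Prod.smul_snd, smul_eq_mul, mul_smul, smul_mul_assoc,
      RingHom.id_apply, Prod.smul_mk, smul_add, mul_zero]
  cont := by fun_prop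

theorem rmul_apply (a : A) (z : ℂ × A) : rmul a z = ((0 : ℂ), z.1 • a + z.2 * a) := rfl

omit [IsScalarTower ℂ A A] [SMulCommClass ℂ A A] [ContinuousMul A] in
/-- The unitization of a normable algebra has a bounded neighbourhood of zero. -/
theorem exists_bdd (hA : Normable A) :
    ∃ B ∈ 𝓝 (0 : ℂ × A), Bornology.IsVonNBounded ℂ B := by
  obtain ⟨p, hp⟩ := hA
  have hpc : Continuous p := hp.continuous_seminorm ()
  refine ⟨Metric.ball 0 1 ×ˢ {a | p a < 1}, ?_, ?_⟩
  · refine prod_mem_nhds (Metric.ball_mem_nhds _ one_pos) ?_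
    refine (isOpen_lt hpc continuous_const).mem_nhds ?_
    simp
  · have h1 : Bornology.IsVonNBounded ℂ (Metric.ball (0 : ℂ) 1) :=
      NormedSpace.isVonNBounded_ball ℂ ℂ 1
    have h2 : Bornology.IsVonNBounded ℂ {a | p a < 1} :=
      hp.isVonNBounded_iff_seminorm_bounded.2 fun _ => ⟨1, one_pos, fun x hx => hx⟩
    intro V hV
    have hV' : V ∈ 𝓝 ((0 : ℂ), (0 : A)) := hV
    rw [nhds_prod_eq, Filter.mem_prod_iff] at hV'
    obtain ⟨V1, hV1, V2, hV2, hV12⟩ := hV'
    filter_upwards [h1 hV1, h2 hV2] with c hc1 hc2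
    rintro ⟨x, y⟩ ⟨hx, hy⟩
    obtain ⟨x', hx', rfl⟩ := hc1 hx
    obtain ⟨y', hy', rfl⟩ := hc2 hy
    exact ⟨(x', y'), hV12 ⟨hx', hy'⟩, rfl⟩

section

variable {X : Type u} [AddCommGroup X] [Module ℂ X] [TopologicalSpace X] [IsFrechet X]

/-- The action of `A` on the cofree module. -/
noncomputable def actC (X : Type u) [AddCommGroup X] [Module ℂ X] [TopologicalSpace X] [IsFrechet X] :
    A →ₗ[ℂ] ((ℂ × A) →L[ℂ] X) →ₗ[ℂ] ((ℂ × A) →L[ℂ] X) :=
  LinearMap.mk₂ ℂ (fun a φ => φ.comp (rmul a))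
    (by
      intro a b φ
      refine ContinuousLinearMap.ext fun z => ?_
      show φ (rmul (a + b) z) = φ (rmul a z) + φ (rmul b z)
      rw [← map_add, rmul_apply, rmul_apply, rmul_apply, smul_add, mul_add, Prod.mk_add_mk,
        add_zero, add_add_add_comm])
    (by
      intro r a φ
      refine ContinuousLinearMap.ext fun z => ?_
      show φ (rmul (r • a) z) = r • φ (rmul a z)
      rw [← map_smul, rmul_apply, rmul_apply, Prod.smul_mk, smul_add, mul_smul_comm, smul_zero,
        smul_comm])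
    (by
      intro a φ ψ
      rfl)
    (by
      intro r a φ
      rfl)

theorem actC_apply (a : A) (φ : (ℂ × A) →L[ℂ] X) (z : ℂ × A) : actC X a φ z = φ (rmul a z) := rfl

theorem continuous_actC (hA : Normable A) :
    Continuous fun p : A × ((ℂ × A) →L[ℂ] X) => actC X p.1 p.2 := by
  have hrc : Continuous fun p : A × (ℂ × A) => rmul p.1 p.2 := by
    show Continuous fun p : A × (ℂ × A) => ((0 : ℂ), p.2.1 • p.1 + p.2.2 * p.1)
    fun_prop
  refine continuous_bilin (G := A) (H := (ℂ × A) →L[ℂ] X) (K := (ℂ × A) →L[ℂ] X)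
    (actC X) ?_ ?_ ?_
  · obtain ⟨B, hB, hBb⟩ := exists_bdd hA
    have h0 : actC X (0 : A) (0 : (ℂ × A) →L[ℂ] X) = 0 := by simp
    rw [ContinuousAt]
    show Tendsto _ _ (𝓝 (actC X (0 : A) (0 : (ℂ × A) →L[ℂ] X)))
    rw [h0, (hasBasis_clm hB hBb).tendsto_right_iff]
    intro V hV
    have h1 : (fun p : A × (ℂ × A) => rmul p.1 p.2) ⁻¹' B ∈ 𝓝 ((0 : A), (0 : ℂ × A)) := by
      refine hrc.continuousAt.preimage_mem_nhds ?_
      simpa using hB
    rw [nhds_prod_eq, Filter.mem_prod_iff] at h1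
    obtain ⟨V2, hV2, V1, hV1, hV12⟩ := h1
    obtain ⟨c, hBc, hc⟩ := ((hBb hV1).and (Bornology.eventually_ne_cobounded (0 : ℂ))).exists
    have h3 : c⁻¹ • V2 ∈ 𝓝 (0 : A) := (set_smul_mem_nhds_zero_iff (inv_ne_zero hc)).2 hV2
    have h4 : {φ : (ℂ × A) →L[ℂ] X | ∀ x ∈ B, φ x ∈ V} ∈ 𝓝 (0 : (ℂ × A) →L[ℂ] X) :=
      (hasBasis_clm hB hBb).mem_of_mem hV
    filter_upwards [prod_mem_nhds h3 h4]
    rintro ⟨a, φ⟩ ⟨ha, hφ⟩ z hz
    obtain ⟨b, hb, rfl⟩ := ha
    obtain ⟨y, hy, rfl⟩ := hBc hz
    show φ (rmul (c⁻¹ • b) (c • y)) ∈ V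
    have h5 : rmul (c⁻¹ • b) (c • y) = rmul b y := by
      rw [rmul_apply, rmul_apply, Prod.smul_fst, Prod.smul_snd, smul_eq_mul, mul_smul,
        smul_comm y.1 c⁻¹ b, smul_inv_smul₀ hc, smul_mul_assoc, mul_smul_comm,
        smul_inv_smul₀ hc]
    rw [h5]
    exact hφ _ (hV12 (Set.mk_mem_prod hb hy))
  · intro a
    exact (ContinuousLinearMap.precomp X (rmul a)).continuous
  · intro φ
    refine ContinuousLinearMap.continuous_of_continuous_uncurry
      ((actC X).flip φ) ?_
    exact φ.continuous.comp hrc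

end

/-- The cofree module. -/
noncomputable def Cof (hA : Normable A) (X : FMod A) : FMod A where
  X := (ℂ × A) →L[ℂ] X.X
  fre := by
    obtain ⟨B, hB, hBb⟩ := exists_bdd hA
    have : IsFrechet (ℂ × A) := IsFrechet.prod
    exact IsFrechet.clm hB hBb
  act := actC X.X
  act_mul := by
    intro a b φ
    refine ContinuousLinearMap.ext fun z => ?_
    show φ (rmul (a * b) z) = φ (rmul b (rmul a z))
    rw [rmul_apply, rmul_apply, rmul_apply, zero_smul, zero_add, add_mul, smul_mul_assoc,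
      mul_assoc]
  act_cont := continuous_actC hA

/-- The unit of the adjunction. -/
noncomputable def etaL (X : FMod A) : X.X →ₗ[ℂ] ((ℂ × A) →L[ℂ] X.X) where
  toFun x :=
    { toFun := fun z => z.1 • x + X.act z.2 x
      map_add' := by
        intro z w
        simp only [Prod.fst_add, Prod.snd_add, add_smul, map_add, LinearMap.add_apply]
        abel
      map_smul' := by
        intro r z
        simp only [Prod.smul_fst, Prod.smul_snd, smul_eq_mul, mul_smul, map_smul,
          LinearMap.smul_apply, RingHom.id_apply, smul_add]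
      cont := by
        have h1 : Continuous fun z : ℂ × A => X.act z.2 x :=
          X.act_cont.comp (by fun_prop : Continuous fun z : ℂ × A => (z.2, x))
        exact (by fun_prop : Continuous fun z : ℂ × A => z.1 • x).add h1 }
  map_add' x y := by
    refine ContinuousLinearMap.ext fun z => ?_
    show z.1 • (x + y) + X.act z.2 (x + y) = (z.1 • x + X.act z.2 x) + (z.1 • y + X.act z.2 y)
    rw [smul_add, map_add]
    abel
  map_smul' r x := by
    refine ContinuousLinearMap.ext fun z => ?_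
    show z.1 • (r • x) + X.act z.2 (r • x) = r • (z.1 • x + X.act z.2 x)
    rw [map_smul, smul_add, smul_comm]

theorem etaL_apply (X : FMod A) (x : X.X) (z : ℂ × A) :
    etaL X x z = z.1 • x + X.act z.2 x := rfl

/-- The unit of the adjunction, as a continuous map. -/
noncomputable def eta (X : FMod A) : X.X →L[ℂ] ((ℂ × A) →L[ℂ] X.X) :=
  ⟨etaL X, by
    refine ContinuousLinearMap.continuous_of_continuous_uncurry (etaL X) ?_
    have h1 : Continuous fun p : X.X × (ℂ × A) => X.act p.2.2 p.1 :=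
      X.act_cont.comp (by fun_prop : Continuous fun p : X.X × (ℂ × A) => (p.2.2, p.1))
    exact (by fun_prop : Continuous fun p : X.X × (ℂ × A) => p.2.1 • p.1).add h1⟩

theorem eta_apply (X : FMod A) (x : X.X) (z : ℂ × A) :
    eta X x z = z.1 • x + X.act z.2 x := rfl

/-- Evaluation at the unit. -/
noncomputable def ev (X : FMod A) : ((ℂ × A) →L[ℂ] X.X) →L[ℂ] X.X :=
  { toFun := fun φ => φ (1, 0)
    map_add' := fun _ _ => rfl
    map_smul' := fun _ _ => rfl
    cont := continuous_eval_const _ }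

theorem ev_apply (X : FMod A) (φ : (ℂ × A) →L[ℂ] X.X) : ev X φ = φ (1, 0) := rfl

theorem ev_eta (X : FMod A) (x : X.X) : ev X (eta X x) = x := by
  rw [ev_apply, eta_apply, one_smul, map_zero, LinearMap.zero_apply, add_zero]

theorem eta_act (X : FMod A) (a : A) (x : X.X) :
    eta X (X.act a x) = actC X.X a (eta X x) := by
  refine ContinuousLinearMap.ext fun z => ?_
  rw [actC_apply, rmul_apply, eta_apply, eta_apply, zero_smul, zero_add, map_add, map_smul,
    LinearMap.add_apply, LinearMap.smul_apply, X.act_mul]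

/-- Cofree modules are injective. -/
theorem injective_Cof (hA : Normable A) (X : FMod A) : Injective (Cof hA X) := by
  intro Y φ hφ ⟨ψ0, hψ0⟩
  let ψ0' : Y.X →L[ℂ] ((ℂ × A) →L[ℂ] X.X) := ψ0
  let θ : Y.X →L[ℂ] X.X := (ev X).comp ψ0'
  let ψ : Y.X →L[ℂ] ((ℂ × A) →L[ℂ] X.X) :=
    (ContinuousLinearMap.postcomp (ℂ × A) θ).comp (eta Y)
  have hψ : ∀ (y : Y.X) (z : ℂ × A), ψ y z = ev X (ψ0' (z.1 • y + Y.act z.2 y)) :=
    fun y z => rfl
  refine ⟨ψ, fun a y => ?_, fun h => ?_⟩
  · show ψ (Y.act a y) = actC X.X a (ψ y)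
    refine ContinuousLinearMap.ext fun z => ?_
    have key : z.1 • Y.act a y + Y.act z.2 (Y.act a y) =
        (0 : ℂ) • y + Y.act (z.1 • a + z.2 * a) y := by
      rw [zero_smul, zero_add, map_add, map_smul, LinearMap.add_apply, LinearMap.smul_apply,
        Y.act_mul]
    rw [actC_apply, hψ, hψ, rmul_apply, key]
  · let h' : (ℂ × A) →L[ℂ] X.X := h
    show ψ (φ h') = h'
    refine ContinuousLinearMap.ext fun z => ?_
    rw [hψ, ← hφ, ← map_smul, ← map_add]
    show ev X (ψ0 (φ (z.1 • h' + actC X.X z.2 h'))) = h' z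
    rw [hψ0]
    show ev X (z.1 • h' + actC X.X z.2 h') = h' z
    rw [ev_apply, add_apply, smul_apply, actC_apply,
      rmul_apply, one_smul, zero_mul, add_zero, ← map_smul, ← map_add]
    congr 1
    ext <;> simp

end Pool.Agent.Helper20.FA
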