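import Mathlib

/-!
# Fréchet spaces, Fréchet algebras and Fréchet modules
-/

open Topology

namespace Pool.Agent.Helper20.FA

universe u

/-- `E` is a Fréchet space: a complete metrizable locally convex complex topological vector
space. -/
class IsFrechet (E : Type u) [AddCommGroup E] [Module ℂ E] [TopologicalSpace E] : Prop where
  tag : IsTopologicalAddGroup E
  csm : ContinuousSMul ℂ E
  lcs : LocallyConvexSpace ℝ E
  metr : TopologicalSpace.MetrizableSpace E
  complete : @CompleteSpace E (@IsTopologicalAddGroup.rightUniformSpace E _ _ tag)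

/-- A Fréchet left module over `A`. -/
structure FMod (A : Type u) [NonUnitalRing A] [Module ℂ A] [TopologicalSpace A] :
    Type (u + 1) where
  X : Type u
  [acg : AddCommGroup X]
  [mdl : Module ℂ X]
  [top : TopologicalSpace X]
  [fre : IsFrechet X]
  act : A →ₗ[ℂ] X →ₗ[ℂ] X
  act_mul : ∀ (a b : A) (x : X), act (a * b) x = act a (act b x)
  act_cont : Continuous fun p : A × X => act p.1 p.2

attribute [instance] FMod.acg FMod.mdl FMod.top FMod.fre

variable {A : Type u} [NonUnitalRing A] [Module ℂ A] [TopologicalSpace A]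

/-- The continuous linear map `φ` is a morphism of modules. -/
def IsHom (X Y : FMod A) (φ : X.X →L[ℂ] Y.X) : Prop := ∀ (a : A) (x : X.X),
  φ (X.act a x) = Y.act a (φ x)

/-- Injective Fréchet modules. -/
def Injective (J : FMod A) : Prop :=
  ∀ (Y : FMod A) (φ : J.X →L[ℂ] Y.X), IsHom J Y φ → (∃ ψ : Y.X →L[ℂ] J.X, ∀ x, ψ (φ x) = x) →
    ∃ ψ : Y.X →L[ℂ] J.X, IsHom Y J ψ ∧ ∀ x, ψ (φ x) = x

/-- `X` has an injective coresolution `0 → X → J 0 → J 1 → ...`, with contracting homotopy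
`s, t 0, t 1, ...`. -/
def HasInjectiveCoresolution (X : FMod A) : Prop :=
  ∃ J : ℕ → FMod A, (∀ n, Injective (J n)) ∧
    ∃ (e : X.X →L[ℂ] (J 0).X) (d : ∀ n, (J n).X →L[ℂ] (J (n + 1)).X),
      IsHom X (J 0) e ∧ (∀ n, IsHom (J n) (J (n + 1)) (d n)) ∧
      (∀ x, d 0 (e x) = 0) ∧ (∀ n x, d (n + 1) (d n x) = 0) ∧
      ∃ (s : (J 0).X →L[ℂ] X.X) (t : ∀ n, (J (n + 1)).X →L[ℂ] (J n).X),
        (∀ x, s (e x) = x) ∧ (∀ y, e (s y) + t 0 (d 0 y) = y) ∧
        ∀ n y, d n (t n y) + t (n + 1) (d (n + 1) y) = y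

/-- The topology of `E` is given by one seminorm (a norm, if `E` is Hausdorff). -/
def Normable (E : Type u) [AddCommGroup E] [Module ℂ E] [TopologicalSpace E] : Prop :=
  ∃ p : Seminorm ℂ E, WithSeminorms (fun _ : Unit => p)

end Pool.Agent.Helper20.FA
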