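import Pool.Agent.Helper20.FA.Short

/-!
# An example: sequences with the zero product
-/

open Topology Filter

namespace Pool.Agent.Helper20.FA

universe v

/-- Countable products of Fréchet spaces. -/
theorem IsFrechet.pi {F : ℕ → Type v} [∀ i, AddCommGroup (F i)] [∀ i, Module ℂ (F i)]
    [∀ i, TopologicalSpace (F i)] [h : ∀ i, IsFrechet (F i)] : IsFrechet (∀ i, F i) := by
  have := fun i => (h i).tag
  have := fun i => (h i).csm
  have := fun i => (h i).lcs
  have := fun i => (h i).metr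
  refine ⟨inferInstance, inferInstance, inferInstance, metr_of, ?_⟩
  let : ∀ i, UniformSpace (F i) := fun i => IsTopologicalAddGroup.rightUniformSpace (F i)
  have : ∀ i, IsUniformAddGroup (F i) := fun i => isUniformAddGroup_of_addCommGroup
  have : ∀ i, CompleteSpace (F i) := fun i => (h i).complete
  have h1 : IsTopologicalAddGroup.rightUniformSpace (∀ i, F i) = Pi.uniformSpace F :=
    IsUniformAddGroup.rightUniformSpace_eq
  rw [h1]
  infer_instance

/-- The space of sequences. -/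
def ZSeq : Type := ℕ → ℂ

noncomputable instance : AddCommGroup ZSeq := inferInstanceAs (AddCommGroup (ℕ → ℂ))

noncomputable instance : Module ℂ ZSeq := inferInstanceAs (Module ℂ (ℕ → ℂ))

noncomputable instance : TopologicalSpace ZSeq := inferInstanceAs (TopologicalSpace (ℕ → ℂ))

instance : IsFrechet ZSeq := IsFrechet.pi (F := fun _ => ℂ)

/-- The zero product. -/
noncomputable instance : NonUnitalRing ZSeq :=
  { (inferInstance : AddCommGroup ZSeq) with
    mul := fun _ _ => 0
    left_distrib := fun _ _ _ => (add_zero (0 : ZSeq)).symm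
    right_distrib := fun _ _ _ => (add_zero (0 : ZSeq)).symm
    zero_mul := fun _ => rfl
    mul_zero := fun _ => rfl
    mul_assoc := fun _ _ _ => rfl }

theorem ZSeq.mul_eq (a b : ZSeq) : a * b = 0 := rfl

instance : IsScalarTower ℂ ZSeq ZSeq := ⟨fun r a b => by
  show (r • a) * b = r • (a * b)
  rw [ZSeq.mul_eq, ZSeq.mul_eq, smul_zero]⟩

instance : SMulCommClass ℂ ZSeq ZSeq := ⟨fun r a b => by
  show r • (a * b) = a * (r • b)
  rw [ZSeq.mul_eq, ZSeq.mul_eq, smul_zero]⟩

instance : ContinuousMul ZSeq := ⟨continuous_const⟩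

theorem ZSeq.proNilpotent : ProNilpotentAt (0 : ZSeq →L[ℂ] ℂ) := by
  intro U hU
  refine ⟨1, fun l hl c => ?_⟩
  obtain ⟨a, rfl⟩ := List.length_eq_one_iff.1 hl
  have h1 : opA (0 : ZSeq →L[ℂ] ℂ) [a] c = 0 := by
    show a * c - (0 : ℂ) • c = 0
    rw [ZSeq.mul_eq, zero_smul, sub_zero]
  rw [h1]
  exact mem_of_mem_nhds hU

/-- The space of sequences is not normable. -/
theorem ZSeq.not_normable : ¬ Normable ZSeq := by
  rintro ⟨p, hp⟩
  have hpc : Continuous p := hp.continuous_seminorm ()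
  have h1 : {x : ZSeq | p x < 1} ∈ 𝓝 (0 : ZSeq) := by
    refine (isOpen_lt hpc continuous_const).mem_nhds ?_
    simp
  have h2 : {x : ℕ → ℂ | p (show ZSeq from x) < 1} ∈ 𝓝 (0 : ℕ → ℂ) := h1
  rw [nhds_pi, Filter.mem_pi] at h2
  obtain ⟨I, hI, t, ht, htp⟩ := h2
  obtain ⟨n, hn⟩ := hI.exists_notMem
  let x : ZSeq := fun i => if i = n then 1 else 0
  have h3 : ∀ r : ℝ, 0 < r → r * p x < 1 := by
    intro r hr
    have h4 : ((r : ℂ) • x : ZSeq) ∈ {x : ZSeq | p x < 1} := by
      refine htp fun i hi => ?_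
      have h5 : (((r : ℂ) • x : ZSeq) : ℕ → ℂ) i = 0 := by
        show (r : ℂ) * (if i = n then 1 else 0) = 0
        rw [if_neg (by rintro rfl; exact hn hi), mul_zero]
      rw [h5]
      exact mem_of_mem_nhds (ht i)
    have h6 : p ((r : ℂ) • x) < 1 := h4
    rwa [map_smul_eq_mul, Complex.norm_real, Real.norm_of_nonneg hr.le] at h6
  have h7 : p x = 0 := by
    by_contra h8
    have h9 : 0 < p x := lt_of_le_of_ne (apply_nonneg _ _) (Ne.symm h8)
    have h10 := h3 (1 / p x) (by positivity)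
    rw [one_div_mul_cancel h9.ne'] at h10
    exact lt_irrefl _ h10
  have h11 : T1Space ZSeq := inferInstanceAs (T1Space (ℕ → ℂ))
  have h12 := (hp.separating_iff_T1.2 h11) x (by
    intro h
    have h13 : (x : ℕ → ℂ) n = 0 := congrFun h n
    have h14 : (x : ℕ → ℂ) n = 1 := if_pos rfl
    rw [h14] at h13
    exact one_ne_zero h13)
  obtain ⟨i, hi⟩ := h12
  exact hi h7

/-- No nonzero Fréchet module over this algebra has an injective coresolution. -/
theorem ZSeq.not_hasCores (X : FMod ZSeq) (x : X.X) (hx : x ≠ 0) : ¬ HasCores X := by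
  intro hX
  refine ZSeq.not_normable (((tfae' (0 : ZSeq →L[ℂ] ℂ) (fun _ _ => (mul_zero (0 : ℂ)).symm)
    ZSeq.proNilpotent).out 1 2 :).1 ⟨X, ⟨2, x, hx, fun l hl => ?_⟩, hX⟩)
  obtain ⟨a, b, rfl⟩ := List.length_eq_two.1 hl
  show X.act a (X.act b x - (0 : ℂ) • x) - (0 : ℂ) • (X.act b x - (0 : ℂ) • x) = 0
  rw [zero_smul, zero_smul, sub_zero, sub_zero, ← X.act_mul, ZSeq.mul_eq, map_zero,
    LinearMap.zero_apply]

end Pool.Agent.Helper20.FA
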