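import Pool.Agent.Helper20.FA.Quot

/-!
# The extension of an injective module by a functional
-/

open Topology Filter

namespace Pool.Agent.Helper20.FA

universe u

variable {A : Type u} [NonUnitalRing A] [Module ℂ A] [IsScalarTower ℂ A A] [SMulCommClass ℂ A A]
  [TopologicalSpace A] [IsFrechet A] [ContinuousMul A]

/-- The action of `A` on `J × A_+`. -/
def actZ (J : FMod A) : A →ₗ[ℂ] (J.X × (ℂ × A)) →ₗ[ℂ] (J.X × (ℂ × A)) :=
  LinearMap.mk₂ ℂ (fun a z => (J.act a z.1, ((0 : ℂ), z.2.1 • a + a * z.2.2)))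
    (by
      intro a b z
      simp only [map_add, LinearMap.add_apply, smul_add, add_mul, Prod.mk_add_mk, add_zero]
      congr 2
      abel)
    (by
      intro r a z
      simp only [map_smul, LinearMap.smul_apply, Prod.smul_mk, smul_add, smul_mul_assoc,
        smul_zero, smul_comm r])
    (by
      intro a z w
      simp only [Prod.fst_add, Prod.snd_add, map_add, add_smul, mul_add, Prod.mk_add_mk, add_zero]
      congr 2
      abel)
    (by
      intro r a z
      simp only [Prod.smul_fst, Prod.smul_snd, map_smul, smul_eq_mul, mul_smul_comm, mul_smul,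
        Prod.smul_mk, smul_add, mul_zero])

omit [IsFrechet A] [ContinuousMul A] in
theorem actZ_apply (J : FMod A) (a : A) (z : J.X × (ℂ × A)) :
    actZ J a z = (J.act a z.1, ((0 : ℂ), z.2.1 • a + a * z.2.2)) := rfl

/-- The graph by which one divides. -/
def grN (J : FMod A) (y : J.X) (L : Submodule ℂ A) (f : A →L[ℂ] ℂ) :
    Submodule ℂ (J.X × (ℂ × A)) where
  carrier := {z | z.2.1 = 0 ∧ z.2.2 ∈ L ∧ z.1 = -(f z.2.2 • y)}
  add_mem' := by
    rintro z w ⟨h1, h2, h3⟩ ⟨h4, h5, h6⟩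
    refine ⟨?_, L.add_mem h2 h5, ?_⟩
    · rw [Prod.snd_add, Prod.fst_add, h1, h4, add_zero]
    · rw [Prod.fst_add, h3, h6, Prod.snd_add, Prod.snd_add, map_add, add_smul, neg_add]
  zero_mem' := by
    refine ⟨rfl, L.zero_mem, ?_⟩
    simp
  smul_mem' := by
    rintro r z ⟨h1, h2, h3⟩
    refine ⟨?_, L.smul_mem r h2, ?_⟩
    · rw [Prod.smul_snd, Prod.smul_fst, h1, smul_zero]
    · rw [Prod.smul_fst, h3, Prod.smul_snd, Prod.smul_snd, map_smul, smul_eq_mul, mul_smul,
        smul_neg]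

omit [IsScalarTower ℂ A A] [SMulCommClass ℂ A A] [IsFrechet A] [ContinuousMul A] in
theorem mem_grN {J : FMod A} {y : J.X} {L : Submodule ℂ A} {f : A →L[ℂ] ℂ}
    {z : J.X × (ℂ × A)} : z ∈ grN J y L f ↔ z.2.1 = 0 ∧ z.2.2 ∈ L ∧ z.1 = -(f z.2.2 • y) :=
  Iff.rfl

omit [IsScalarTower ℂ A A] [SMulCommClass ℂ A A] [IsFrechet A] [ContinuousMul A] in
theorem isClosed_grN (J : FMod A) (y : J.X) {L : Submodule ℂ A} (hL : IsClosed (L : Set A))
    (f : A →L[ℂ] ℂ) : IsClosed (grN J y L f : Set (J.X × (ℂ × A))) := by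
  have := J.fre.tag
  have := J.fre.csm
  have := J.fre.metr
  have h1 : IsClosed {z : J.X × (ℂ × A) | z.2.1 = 0} :=
    isClosed_eq (by fun_prop) (by fun_prop)
  have h2 : IsClosed {z : J.X × (ℂ × A) | z.2.2 ∈ L} :=
    hL.preimage (by fun_prop : Continuous fun z : J.X × (ℂ × A) => z.2.2)
  have h3 : IsClosed {z : J.X × (ℂ × A) | z.1 = -(f z.2.2 • y)} :=
    isClosed_eq (by fun_prop) (by fun_prop)
  exact (h1.inter (h2.inter h3))

/-- The quotient module. -/
theorem exists_ext {J : FMod A} (hJ : Injective J) {χ : A → ℂ} {y : J.X}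
    (hy : ∀ a, J.act a y = χ a • y)
    (L : Submodule ℂ A) (hLc : IsClosed (L : Set A)) (hL : ∀ a : A, ∀ c ∈ L, a * c ∈ L)
    (f : A →L[ℂ] ℂ) (hf : ∀ a : A, ∀ c ∈ L, f (a * c) = χ a * f c) :
    ∃ x : J.X, ∀ c ∈ L, J.act c x = f c • y := by
  have hA : IsFrechet A := inferInstance
  have := hA.tag
  have := hA.csm
  have := J.fre.tag
  have := J.fre.csm
  have := J.fre.metr
  set N := grN J y L f with hN
  have hst : ∀ a : A, N ≤ N.comap (actZ J a) := by
    rintro a z ⟨h1, h2, h3⟩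
    rw [Submodule.mem_comap, actZ_apply, hN, mem_grN]
    refine ⟨rfl, ?_, ?_⟩
    · show z.2.1 • a + a * z.2.2 ∈ L
      rw [h1, zero_smul, zero_add]
      exact hL a _ h2
    · show J.act a z.1 = -(f (z.2.1 • a + a * z.2.2) • y)
      rw [h1, zero_smul, zero_add, hf a _ h2, h3, map_neg, map_smul, hy, smul_smul,
        mul_comm]
  have : IsFrechet (ℂ × A) := IsFrechet.prod
  have : IsFrechet (J.X × (ℂ × A)) := IsFrechet.prod
  have hNc : IsClosed (N : Set (J.X × (ℂ × A))) := isClosed_grN J y hLc f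
  have hQ : IsFrechet ((J.X × (ℂ × A)) ⧸ N) := IsFrechet.quot N hNc
  let actY : A →ₗ[ℂ] ((J.X × (ℂ × A)) ⧸ N) →ₗ[ℂ] ((J.X × (ℂ × A)) ⧸ N) :=
    { toFun := fun a => N.mapQ N (actZ J a) (hst a)
      map_add' := by
        intro a b
        ext1
        refine LinearMap.ext fun z => ?_
        simp
      map_smul' := by
        intro r a
        ext1
        refine LinearMap.ext fun z => ?_
        simp }
  have hact : ∀ a z, actY a (N.mkQ z) = N.mkQ (actZ J a z) := fun a z => rfl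
  let Y : FMod A :=
    { X := (J.X × (ℂ × A)) ⧸ N
      act := actY
      act_mul := by
        intro a b x
        obtain ⟨z, rfl⟩ := N.mkQ_surjective x
        rw [hact, hact, hact]
        congr 1
        rw [actZ_apply, actZ_apply, actZ_apply, J.act_mul]
        simp only [zero_smul, zero_add, mul_add, mul_smul_comm, mul_assoc]
      act_cont := by
        rw [← (IsOpenQuotientMap.id.prodMap N.isOpenQuotientMap_mkQ).continuous_comp_iff]
        have h1 : Continuous fun p : A × (J.X × (ℂ × A)) => actZ J p.1 p.2 := by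
          have h2 : Continuous fun p : A × (J.X × (ℂ × A)) => J.act p.1 p.2.1 :=
            J.act_cont.comp (by fun_prop : Continuous fun p : A × (J.X × (ℂ × A)) =>
              (p.1, p.2.1))
          have h3 : Continuous fun p : A × (J.X × (ℂ × A)) => p.2.2.1 • p.1 + p.1 * p.2.2.2 := by
            fun_prop
          exact h2.prodMk (continuous_const.prodMk h3)
        exact N.continuous_mkQ.comp h1 }
  let φ : J.X →L[ℂ] Y.X := N.mkQL.comp (ContinuousLinearMap.inl ℂ J.X (ℂ × A))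
  have hφ : ∀ x, φ x = N.mkQ (x, 0) := fun x => rfl
  have hφh : IsHom J Y φ := by
    intro a x
    rw [hφ, hφ]
    show _ = actY a _
    rw [hact, actZ_apply]
    refine congrArg N.mkQ (Prod.ext rfl (Prod.ext rfl ?_))
    simp
  let ψ0 : (J.X × (ℂ × A)) →L[ℂ] J.X :=
    ContinuousLinearMap.fst ℂ J.X (ℂ × A) +
      ((f.comp (ContinuousLinearMap.snd ℂ ℂ A)).comp
        (ContinuousLinearMap.snd ℂ J.X (ℂ × A))).smulRight y
  have hψ0 : ∀ z, ψ0 z = z.1 + f z.2.2 • y := fun z => rfl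
  have hker : ∀ z ∈ N, ψ0 z = 0 := by
    rintro z ⟨h1, h2, h3⟩
    rw [hψ0, h3, neg_add_cancel]
  obtain ⟨ρ, hρ, hρφ⟩ := hJ Y φ hφh ⟨N.liftQL ψ0 hker, by
    intro x
    show ψ0 (x, 0) = x
    rw [hψ0]
    simp⟩
  refine ⟨ρ (N.mkQ (0, (1, 0))), fun c hc => ?_⟩
  rw [← hρ c]
  have h1 : Y.act c (N.mkQ (0, (1, 0))) = φ (f c • y) := by
    show actY c _ = _
    rw [hact, hφ, actZ_apply, ← sub_eq_zero, ← map_sub, ← LinearMap.mem_ker, Submodule.ker_mkQ,
      hN, mem_grN]
    refine ⟨?_, ?_, ?_⟩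
    · simp
    · simpa using hc
    · simp
  rw [h1, hρφ]

end Pool.Agent.Helper20.FA
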