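import Pool.Agent.Helper20.FA.Chain

/-!
# Killed elements of injective modules
-/

open Topology Filter

namespace Pool.Agent.Helper20.FA

universe u

variable {A : Type u} [NonUnitalRing A] [Module ℂ A] [IsScalarTower ℂ A A] [SMulCommClass ℂ A A]
  [TopologicalSpace A] [IsFrechet A] [ContinuousMul A]

omit [IsScalarTower ℂ A A] [SMulCommClass ℂ A A] [IsFrechet A] [ContinuousMul A] in
/-- An element that is killed by all products of length `k` gives a killed element. -/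
theorem exists_killed {χ : A → ℂ} {X : FMod A} (k : ℕ) {x : X.X} (hx : x ≠ 0)
    (h : ∀ l : List A, l.length = k → l.foldr (fun a z => X.act a z - χ a • z) x = 0) :
    ∃ y : X.X, y ≠ 0 ∧ ∀ a, X.act a y = χ a • y := by
  induction k with
  | zero => exact absurd (h [] rfl) hx
  | succ k ih =>
    by_cases hk : ∀ l : List A, l.length = k → l.foldr (fun a z => X.act a z - χ a • z) x = 0
    · exact ih hk
    · push Not at hk
      obtain ⟨l, hl, hlx⟩ := hk
      refine ⟨_, hlx, fun a => sub_eq_zero.1 ?_⟩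
      exact h (a :: l) (by rw [List.length_cons, hl])

omit [IsScalarTower ℂ A A] [SMulCommClass ℂ A A] [IsFrechet A] [ContinuousMul A] in
/-- A module with an injective coresolution sits in an injective module. -/
theorem exists_injective {χ : A → ℂ} {X : FMod A} (hX : HasInjectiveCoresolution X) {x : X.X}
    (hx : x ≠ 0) (h : ∀ a, X.act a x = χ a • x) : ∃ J : FMod A, Injective J ∧ ∃ y : J.X, y ≠ 0 ∧
      ∀ a, J.act a y = χ a • y := by
  obtain ⟨J, hJ, e, d, he, -, -, -, s, -, hs, -⟩ := hX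
  refine ⟨J 0, hJ 0, e x, ?_, fun a => ?_⟩
  · intro h0
    have h1 := hs x
    rw [h0, map_zero] at h1
    exact hx h1.symm
  · rw [← he, h, map_smul]

/-- The general necessary condition. -/
theorem necessary {J : FMod A} (hJ : Injective J) {χ : A → ℂ} {y : J.X} (hy0 : y ≠ 0)
    (hy : ∀ a, J.act a y = χ a • y) :
    ∃ p : Seminorm ℂ A, Continuous p ∧ ∀ L : Submodule ℂ A, IsClosed (L : Set A) →
      (∀ a : A, ∀ c ∈ L, a * c ∈ L) → ∀ v : Seminorm ℂ A, Continuous v →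
        ∃ M : ℝ, ∀ c ∈ L, p c < 1 →
          ∃ j ∈ Submodule.span ℂ {x | ∃ a : A, ∃ b ∈ L, x = a * b - χ a • b}, v (c - j) ≤ M := by
  have hA : IsFrechet A := inferInstance
  have := hA.tag
  have := hA.csm
  have := hA.lcs
  obtain ⟨U, hU, hG⟩ := bound hJ hy0 hy
  obtain ⟨p, hp, hpU⟩ := exists_seminorm hU
  refine ⟨p, hp, fun L hLc hL v hv => ?_⟩
  obtain ⟨M, hM⟩ := wsq v (Submodule.span ℂ {x | ∃ a : A, ∃ b ∈ L, x = a * b - χ a • b})
    {b | b ∈ U ∧ b ∈ L} (by
      rintro f ⟨D, hD⟩ hf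
      have hfc : Continuous f := by
        refine continuous_of_continuousAt_zero f ?_
        rw [ContinuousAt, map_zero]
        refine squeeze_zero_norm hD ?_
        have h1 : Continuous fun x : A => D * v x := continuous_const.mul hv
        have h2 := h1.continuousAt (x := (0 : A))
        rwa [ContinuousAt, map_zero, mul_zero] at h2
      obtain ⟨M, hM⟩ := hG L hLc hL ⟨f, hfc⟩
        (fun a c hc => by
          have h1 := hf _ (Submodule.subset_span ⟨a, c, hc, rfl⟩)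
          rw [map_sub, map_smul, smul_eq_mul, sub_eq_zero] at h1
          exact h1)
      exact ⟨M, fun b hb => hM b hb.1 hb.2⟩)
  exact ⟨M, fun c hc hpc => hM c ⟨hpU c hpc, hc⟩⟩

/-- The closed ideals `Q χ I n` reach `I`. -/
theorem main_aux {J : FMod A} (hJ : Injective J) {χ : A → ℂ} {y : J.X} (hy0 : y ≠ 0)
    (hy : ∀ a, J.act a y = χ a • y) {I : Submodule ℂ A} (hIc : IsClosed (I : Set A))
    (hI : ∀ a : A, ∀ c ∈ I, a * c ∈ I)
    (hpro : ∀ U ∈ 𝓝 (0 : A), ∃ n : ℕ, ∀ x ∈ prods χ n, ∃ i ∈ I, x - i ∈ U) :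
    (∃ n : ℕ, ∀ x ∈ prods χ n, x ∈ I) ∧ ∃ p : Seminorm ℂ A, Continuous p ∧
      ∀ v : Seminorm ℂ A, Continuous v → ∃ C : ℝ, ∀ c, p c < 1 → ∃ j ∈ I, v (c - j) ≤ C := by
  have hA : IsFrechet A := inferInstance
  have := hA.tag
  have := hA.csm
  have := hA.lcs
  obtain ⟨U, hU, hG⟩ := bound hJ hy0 hy
  obtain ⟨p1, hp1, hp1U⟩ := exists_seminorm hU
  obtain ⟨n, hn⟩ := pro hpro p1 hp1
  have hst := stab hI hG hp1U hn
  have hanti : Antitone (Q χ I) := antitone_nat_of_succ_le (Q_succ_le χ I)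
  have hQ : Q χ I n ≤ I := by
    intro c hc
    have h1 : c ∈ closure (I : Set A) := by
      rw [mem_closure_iff_nhds]
      intro V hV
      have h2 : (fun x : A => c - x) ⁻¹' V ∈ 𝓝 (0 : A) := by
        have h3 : Continuous fun x : A => c - x := by fun_prop
        refine h3.continuousAt.preimage_mem_nhds ?_
        simpa using hV
      obtain ⟨v, hv, hvV⟩ := exists_seminorm h2
      obtain ⟨m, hm⟩ := pro hpro v hv
      obtain ⟨i, hi, hiv⟩ := hm c (hanti (Nat.le_add_left m n) (hst m hc)) 1 one_pos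
      refine ⟨i, ?_, hi⟩
      have h4 : c - (c - i) ∈ V := hvV _ hiv
      rwa [sub_sub_cancel] at h4
    rwa [hIc.closure_eq] at h1
  obtain ⟨p, hp, hpv⟩ := norm_step hI hU hG n
  refine ⟨⟨n, fun x hx => hQ (prods_subset_Q χ I n hx)⟩, p, hp, fun v hv => ?_⟩
  obtain ⟨C, hC⟩ := hpv v hv
  refine ⟨C, fun c hc => ?_⟩
  obtain ⟨j, hj, hjc⟩ := hC c hc
  exact ⟨j, hQ hj, hjc⟩

/-- The main theorem for quotients. -/
theorem main_quot {J : FMod A} (hJ : Injective J) {χ : A → ℂ} {y : J.X} (hy0 : y ≠ 0)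
    (hy : ∀ a, J.act a y = χ a • y) {I : Submodule ℂ A} (hIc : IsClosed (I : Set A))
    (hI : ∀ a : A, ∀ c ∈ I, a * c ∈ I)
    (hpro : ∀ U ∈ 𝓝 (0 : A), ∃ n : ℕ, ∀ x ∈ prods χ n, ∃ i ∈ I, x - i ∈ U) :
    (∃ n : ℕ, ∀ x ∈ prods χ n, x ∈ I) ∧ Normable (A ⧸ I) := by
  have hA : IsFrechet A := inferInstance
  have := hA.tag
  have := hA.csm
  have := hA.lcs
  obtain ⟨h1, p, hp, hpv⟩ := main_aux hJ hy0 hy hIc hI hpro
  exact ⟨h1, normable_of hp hpv⟩

/-- The main theorem for `I = 0`. -/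
theorem main_bot {J : FMod A} (hJ : Injective J) {χ : A → ℂ} {y : J.X} (hy0 : y ≠ 0)
    (hy : ∀ a, J.act a y = χ a • y)
    (hpro : ∀ U ∈ 𝓝 (0 : A), ∃ n : ℕ, ∀ x ∈ prods χ n, x ∈ U) :
    Normable A := by
  have hA : IsFrechet A := inferInstance
  have := hA.tag
  have := hA.csm
  have := hA.lcs
  have := hA.metr
  obtain ⟨-, p, hp, hpv⟩ := main_aux hJ hy0 hy (I := ⊥) isClosed_singleton (by
    intro a c hc
    rw [Submodule.mem_bot] at hc ⊢
    rw [hc, mul_zero]) (fun U hU => by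
    obtain ⟨n, hn⟩ := hpro U hU
    exact ⟨n, fun x hx => ⟨0, Submodule.zero_mem _, by simpa using hn x hx⟩⟩)
  refine ⟨p, ?_⟩
  rw [SeminormFamily.withSeminorms_iff_nhds_eq_iInf, iInf_const]
  refine le_antisymm ?_ ?_
  · rw [← Filter.tendsto_iff_comap]
    have h1 := hp.continuousAt (x := (0 : A))
    rwa [ContinuousAt, map_zero] at h1
  · intro O hO
    obtain ⟨v, hv, hvO⟩ := exists_seminorm hO
    obtain ⟨C, hC⟩ := hpv v hv
    have hs : (0 : ℝ) < |C| + 1 := by positivity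
    refine ⟨Metric.ball 0 (|C| + 1)⁻¹, Metric.ball_mem_nhds _ (by positivity), fun x hx => ?_⟩
    have h3 : p x < (|C| + 1)⁻¹ := by
      have h4 : p x ∈ Metric.ball (0 : ℝ) (|C| + 1)⁻¹ := hx
      rwa [Metric.mem_ball, Real.dist_0_eq_abs, abs_of_nonneg (apply_nonneg _ _)] at h4
    set s : ℂ := ((|C| + 1 : ℝ) : ℂ) with hsdef
    have hsn : ‖s‖ = |C| + 1 := by
      rw [hsdef, Complex.norm_real, Real.norm_of_nonneg hs.le]
    obtain ⟨i, hi, hiv⟩ := hC (s • x) (by
      rw [map_smul_eq_mul, hsn]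
      rw [← lt_inv_mul_iff₀ hs, mul_one]
      exact h3)
    rw [Submodule.mem_bot] at hi
    rw [hi, sub_zero, map_smul_eq_mul, hsn] at hiv
    refine hvO x ?_
    by_contra h5
    push Not at h5
    have h6 : |C| + 1 ≤ (|C| + 1) * v x := by nlinarith
    linarith [le_abs_self C]

end Pool.Agent.Helper20.FA
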