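import Pool.Agent.Helper20.FA.Defs

/-!
# Products and quotients of Fréchet spaces
-/

open Topology Filter

namespace Pool.Agent.Helper20.FA

universe u v w

section

variable {E : Type v} [AddCommGroup E] [Module ℂ E] [TopologicalSpace E]

theorem firstCountable [h : IsFrechet E] : FirstCountableTopology E := by
  have := h.metr
  infer_instance

theorem t2 [h : IsFrechet E] : T2Space E := by
  have := h.metr
  infer_instance

omit [Module ℂ E] in
theorem metr_of [IsTopologicalAddGroup E] [T2Space E] [FirstCountableTopology E] :
    TopologicalSpace.MetrizableSpace E := by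
  let : UniformSpace E := IsTopologicalAddGroup.rightUniformSpace E
  have : IsUniformAddGroup E := isUniformAddGroup_of_addCommGroup
  have : (uniformity E).IsCountablyGenerated := IsUniformAddGroup.uniformity_countably_generated
  exact UniformSpace.metrizableSpace

theorem IsFrechet.prod {F : Type w} [AddCommGroup F] [Module ℂ F] [TopologicalSpace F]
    [hE : IsFrechet E] [hF : IsFrechet F] : IsFrechet (E × F) := by
  have := hE.tag
  have := hF.tag
  have := hE.csm
  have := hF.csm
  have := hE.lcs
  have := hF.lcs
  have := hE.metr
  have := hF.metr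
  refine ⟨inferInstance, inferInstance, inferInstance, inferInstance, ?_⟩
  let : UniformSpace E := IsTopologicalAddGroup.rightUniformSpace E
  let : UniformSpace F := IsTopologicalAddGroup.rightUniformSpace F
  have : IsUniformAddGroup E := isUniformAddGroup_of_addCommGroup
  have : IsUniformAddGroup F := isUniformAddGroup_of_addCommGroup
  have : CompleteSpace E := hE.complete
  have : CompleteSpace F := hF.complete
  have h1 : IsTopologicalAddGroup.rightUniformSpace (E × F) = instUniformSpaceProd :=
    IsUniformAddGroup.rightUniformSpace_eq
  rw [h1]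
  infer_instance

theorem IsFrechet.quot [hE : IsFrechet E] (N : Submodule ℂ E) (hN : IsClosed (N : Set E)) :
    IsFrechet (E ⧸ N) := by
  have := hE.tag
  have := hE.csm
  have := hE.lcs
  have := firstCountable (E := E)
  have := hN
  have : IsTopologicalAddGroup (E ⧸ N) := inferInstance
  have : T2Space (E ⧸ N) := inferInstance
  have : FirstCountableTopology (E ⧸ N) :=
    inferInstanceAs (FirstCountableTopology (E ⧸ N.toAddSubgroup))
  refine ⟨inferInstance, inferInstance, ?_, metr_of, ?_⟩
  · rw [locallyConvexSpace_iff_exists_convex_subset_zero]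
    intro U hU
    have h1 : N.mkQ ⁻¹' U ∈ 𝓝 (0 : E) := by
      have h2 : Continuous N.mkQ := continuous_quot_mk
      have h3 := h2.continuousAt (x := (0 : E))
      rw [ContinuousAt, map_zero] at h3
      exact h3 hU
    obtain ⟨V, hV, hVc, hVU⟩ := (locallyConvexSpace_iff_exists_convex_subset_zero ℝ E).1
      inferInstance _ h1
    refine ⟨N.mkQ '' V, ?_, ?_, ?_⟩
    · have h2 : IsOpenMap N.mkQ := N.isOpenMap_mkQ
      have h3 := h2.image_mem_nhds hV
      rwa [map_zero] at h3
    · exact hVc.linear_image (N.mkQ.restrictScalars ℝ)
    · rintro _ ⟨v, hv, rfl⟩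
      exact hVU hv
  · have := hE.complete
    exact QuotientAddGroup.completeSpace_right' E N.toAddSubgroup

end

instance : IsFrechet ℂ := by
  refine ⟨inferInstance, inferInstance, inferInstance, inferInstance, ?_⟩
  have h1 : IsTopologicalAddGroup.rightUniformSpace ℂ =
      (inferInstanceAs (UniformSpace ℂ)) :=
    IsUniformAddGroup.rightUniformSpace_eq
  rw [h1]
  infer_instance

end Pool.Agent.Helper20.FA
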