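import Pool.Agent.Helper20.FA.Chi

/-!
# The definitions used in the statements
-/

open Topology Filter

namespace Pool.Agent.Helper20.FA

universe u

section

variable {A : Type u} [NonUnitalRing A] [Module ℂ A] [TopologicalSpace A]

/-- The action. -/
def FMod.sm (X : FMod A) (a : A) (x : X.X) : X.X := X.act a x

/-- Continuous linear maps between the underlying spaces of two modules. -/
def Lin (X Y : FMod A) : Type u := X.X →L[ℂ] Y.X

/-- The value of a continuous linear map. -/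
def Lin.ap {X Y : FMod A} (f : Lin X Y) (x : X.X) : Y.X :=
  DFunLike.coe (F := X.X →L[ℂ] Y.X) f x

/-- `f` is a morphism of modules. -/
def Lin.IsMor {X Y : FMod A} (f : Lin X Y) : Prop :=
  ∀ (a : A) (x : X.X), f.ap (X.sm a x) = Y.sm a (f.ap x)

/-- `s` is a left inverse of `f`. -/
def Lin.LeftInv {X Y : FMod A} (s : Lin Y X) (f : Lin X Y) : Prop := ∀ x, s.ap (f.ap x) = x

/-- `g` after `f` is zero. -/
def Lin.CompZero {X Y Z : FMod A} (g : Lin Y Z) (f : Lin X Y) : Prop := ∀ x, g.ap (f.ap x) = 0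

/-- `f s + t g` is the identity of `Y`. -/
def Lin.SplitAt {X Y Z : FMod A} (f : Lin X Y) (s : Lin Y X) (g : Lin Y Z) (t : Lin Z Y) :
    Prop := ∀ y, f.ap (s.ap y) + t.ap (g.ap y) = y

/-- Injective modules. -/
def Inj (J : FMod A) : Prop :=
  ∀ (Y : FMod A) (φ : Lin J Y), φ.IsMor → (∃ ψ : Lin Y J, ψ.LeftInv φ) →
    ∃ ψ : Lin Y J, ψ.IsMor ∧ ψ.LeftInv φ

/-- `X` has an injective coresolution. -/
def HasCores (X : FMod A) : Prop :=
  ∃ J : ℕ → FMod A, (∀ n, Inj (J n)) ∧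
    ∃ (e : Lin X (J 0)) (d : ∀ n, Lin (J n) (J (n + 1))), e.IsMor ∧ (∀ n, (d n).IsMor) ∧
      (d 0).CompZero e ∧ (∀ n, (d (n + 1)).CompZero (d n)) ∧
      ∃ (s : Lin (J 0) X) (t : ∀ n, Lin (J (n + 1)) (J n)), s.LeftInv e ∧
        e.SplitAt s (d 0) (t 0) ∧ ∀ n, (d n).SplitAt (t n) (d (n + 1)) (t (n + 1))

theorem hasCores_iff (X : FMod A) : HasCores X ↔ HasInjectiveCoresolution X := Iff.rfl

theorem inj_iff (X : FMod A) : Inj X ↔ Injective X := Iff.rfl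

/-- `(a 1 - χ (a 1)) ... (a n - χ (a n)) c` for `l = [a 1, ..., a n]`. -/
noncomputable def opA (χ : A →L[ℂ] ℂ) (l : List A) (c : A) : A := l.foldr (fun a z => a * z - χ a • z) c

/-- `(a 1 - χ (a 1)) ... (a n - χ (a n)) x` for `l = [a 1, ..., a n]`. -/
noncomputable def FMod.op (X : FMod A) (χ : A →L[ℂ] ℂ) (l : List A) (x : X.X) : X.X :=
  l.foldr (fun a z => X.act a z - χ a • z) x

/-- The elements `(a 1 - χ (a 1)) ... (a n - χ (a n)) c` tend to zero, uniformly, as `n` tends to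
infinity. -/
def ProNilpotentAt (χ : A →L[ℂ] ℂ) : Prop :=
  ∀ U ∈ 𝓝 (0 : A), ∃ n : ℕ, ∀ l : List A, l.length = n → ∀ c : A, opA χ l c ∈ U

/-- Some `x ≠ 0` is killed by all `(a 1 - χ (a 1)) ... (a k - χ (a k))`, for some `k`. -/
def FMod.HasKilled (X : FMod A) (χ : A →L[ℂ] ℂ) : Prop :=
  ∃ (k : ℕ) (x : X.X), x ≠ 0 ∧ ∀ l : List A, l.length = k → X.op χ l x = 0

end

section

variable {A : Type u} [NonUnitalRing A] [Module ℂ A] [IsScalarTower ℂ A A] [SMulCommClass ℂ A A]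
  [TopologicalSpace A] [IsFrechet A] [ContinuousMul A]

/-- The equivalence. -/
theorem tfae' (χ : A →L[ℂ] ℂ) (hχ : ∀ a b, χ (a * b) = χ a * χ b) (hpro : ProNilpotentAt χ) :
    List.TFAE [∀ X : FMod A, HasCores X, ∃ X : FMod A, X.HasKilled χ ∧ HasCores X,
      Normable A] := by
  have h := tfae χ hχ hpro
  tfae_have 1 → 2 := by
    intro h1
    obtain ⟨X, k, x, hx, hxk, hX⟩ := (h.out 0 1 :).1 h1
    exact ⟨X, ⟨k, x, hx, hxk⟩, hX⟩
  tfae_have 2 → 3 := by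
    rintro ⟨X, ⟨k, x, hx, hxk⟩, hX⟩
    exact (h.out 1 2 :).1 ⟨X, k, x, hx, hxk, hX⟩
  tfae_have 3 → 1 := fun h1 => (h.out 2 0 :).1 h1
  tfae_finish

end

end Pool.Agent.Helper20.FA
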